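import Pool.Agent.P.MP_f9a7a1_al.Defs

set_option autoImplicit false

namespace Pool.Agent.P.MP_f9a7a1_al

open CategoryTheory Abelian

variable {R : Type} [Ring R]

/-- An additive derivation of a ring. -/
structure Der (R : Type) [Ring R] where
  D : R →+ R
  leibniz : ∀ x y, D (x * y) = D x * y + x * D y

theorem Der.map_one (d : Der R) : d.D 1 = 0 := by
  have h := d.leibniz 1 1
  simp only [mul_one, one_mul] at h
  exact left_eq_add.1 h

/-- The self-extension of a module attached to a derivation. -/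
def Tw (_d : Der R) (S : Type) : Type := S × S

variable (d : Der R) (S : Type) [AddCommGroup S] [Module R S]

instance : AddCommGroup (Tw d S) := inferInstanceAs (AddCommGroup (S × S))

instance : Module R (Tw d S) where
  smul r p := ((r • p.1 + d.D r • p.2, r • p.2) : S × S)
  one_smul p := by
    change (((1 : R) • p.1 + d.D 1 • p.2, (1 : R) • p.2) : S × S) = p
    rw [d.map_one, one_smul, one_smul, zero_smul, add_zero]
    rfl
  mul_smul x y p := by
    change (((x * y) • p.1 + d.D (x * y) • p.2, (x * y) • p.2) : S × S) =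
      (x • (y • p.1 + d.D y • p.2) + d.D x • y • p.2, x • y • p.2)
    rw [d.leibniz]
    simp only [mul_smul, add_smul, smul_add]
    congr 1
    abel
  smul_zero r := by
    change ((r • (0 : S) + d.D r • (0 : S), r • (0 : S)) : S × S) = (0, 0)
    simp
  smul_add r p q := by
    change ((r • (p.1 + q.1) + d.D r • (p.2 + q.2), r • (p.2 + q.2)) : S × S) =
      (r • p.1 + d.D r • p.2 + (r • q.1 + d.D r • q.2), r • p.2 + r • q.2)
    simp only [smul_add]
    congr 1
    abel
  add_smul x y p := by
    change (((x + y) • p.1 + d.D (x + y) • p.2, (x + y) • p.2) : S × S) =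
      (x • p.1 + d.D x • p.2 + (y • p.1 + d.D y • p.2), x • p.2 + y • p.2)
    simp only [map_add, add_smul]
    congr 1
    abel
  zero_smul p := by
    change (((0 : R) • p.1 + d.D 0 • p.2, (0 : R) • p.2) : S × S) = (0, 0)
    simp

/-- The inclusion. -/
def twIn : S →ₗ[R] Tw d S where
  toFun a := ((a, 0) : S × S)
  map_add' a b := by
    change ((a + b, 0) : S × S) = (a + b, 0 + 0)
    rw [add_zero]
  map_smul' r a := by
    change ((r • a, 0) : S × S) = (r • a + d.D r • (0 : S), r • (0 : S))
    simp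

/-- The projection. -/
def twOut : Tw d S →ₗ[R] S where
  toFun p := p.2
  map_add' _ _ := rfl
  map_smul' _ _ := rfl

theorem tw_shortExact :
    (ModuleCat.shortComplexOfCompEqZero (twIn d S) (twOut d S) (by ext; rfl)).ShortExact := by
  refine ModuleCat.shortComplex_shortExact _ ?_ ?_ ?_
  · intro p
    constructor
    · intro h
      exact ⟨p.1, Prod.ext rfl (Eq.symm h)⟩
    · rintro ⟨a, rfl⟩
      rfl
  · intro a b h
    exact congrArg Prod.fst h
  · intro b
    exact ⟨((0, b) : S × S), rfl⟩

theorem ext_simple {z : R} (hz : ∀ x, z * x = x * z) (hz3 : (z - 1) ^ 3 = 0) (hD : d.D z = z)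
    (M : ModuleCat.{0} R) (hM : IsSimpleModule R M) : Nontrivial (Ext M M 1) := by
  have hact : ∀ a : M, (z - 1) • a = 0 := by
    let f : M →ₗ[R] M :=
      { toFun := fun a => (z - 1) • a
        map_add' := fun a b => smul_add _ _ _
        map_smul' := fun r a => by
          simp only [RingHom.id_apply, smul_smul, sub_mul, mul_sub, hz r, one_mul, mul_one] }
    rcases LinearMap.injective_or_eq_zero f with h | h
    · intro a
      apply h
      apply h
      change (z - 1) • (z - 1) • (z - 1) • a = (z - 1) • (z - 1) • (0 : M)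
      rw [smul_smul, smul_smul, ← pow_three', hz3]
      simp
    · intro a
      exact LinearMap.congr_fun h a
  by_contra hcon
  rw [not_nontrivial_iff_subsingleton] at hcon
  obtain ⟨x₂, hx⟩ := Ext.covariant_sequence_exact₃ M (tw_shortExact d M) (Ext.mk₀ (𝟙 M))
    (n₁ := 1) rfl (Subsingleton.elim _ _)
  obtain ⟨s, rfl⟩ := (Ext.mk₀_bijective _ _).2 x₂
  rw [Ext.mk₀_comp_mk₀] at hx
  have hs := (Ext.mk₀_bijective _ _).1 hx
  have hs' : ∀ b : M, (s.hom b : M × M).2 = b := fun b => congrArg (fun φ => φ.hom b) hs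
  have : Nontrivial M := IsSimpleModule.nontrivial R M
  obtain ⟨b, hb⟩ := exists_ne (0 : M)
  have h1 : s.hom ((z - 1) • b) = (z - 1) • s.hom b := map_smul _ _ _
  rw [hact, map_zero] at h1
  have h2 : (0 : M) = (z - 1) • (s.hom b : M × M).1 + d.D (z - 1) • (s.hom b : M × M).2 :=
    congrArg Prod.fst h1
  rw [hact, hs', map_sub, hD, d.map_one, sub_zero, zero_add] at h2
  have h3 := hact b
  rw [sub_smul, one_smul, ← h2, zero_sub, neg_eq_zero] at h3
  exact hb h3

theorem ext_quot (K : Submodule R R) (hK : ∀ f : K →ₗ[R] R ⧸ K, f = 0) :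
    Subsingleton (Ext (ModuleCat.of R (R ⧸ K)) (ModuleCat.of R (R ⧸ K)) 1) := by
  have hS : (ModuleCat.shortComplexOfCompEqZero K.subtype K.mkQ (by ext; simp)).ShortExact := by
    refine ModuleCat.shortComplex_shortExact _ ?_ K.injective_subtype K.mkQ_surjective
    exact LinearMap.exact_subtype_mkQ K
  refine subsingleton_of_forall_eq 0 (fun x => ?_)
  obtain ⟨x₁, rfl⟩ := Ext.contravariant_sequence_exact₃ hS _ x (n₀ := 0)
    (Ext.eq_zero_of_projective _) rfl
  obtain ⟨f, rfl⟩ := (Ext.mk₀_bijective _ _).2 x₁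
  have : f = 0 := ModuleCat.hom_ext (hK f.hom)
  rw [this, Ext.mk₀_zero, Ext.comp_zero]

theorem exists_of_projective (K : Submodule R R) (h : Module.Projective R (R ⧸ K)) :
    ∃ u : R, u - 1 ∈ K ∧ ∀ t ∈ K, t * u = 0 := by
  obtain ⟨s, hs⟩ := Module.projective_lifting_property K.mkQ LinearMap.id K.mkQ_surjective
  refine ⟨s (K.mkQ 1), ?_, fun t ht => ?_⟩
  · rw [← Submodule.Quotient.eq]
    exact LinearMap.congr_fun hs (K.mkQ 1)
  · rw [← smul_eq_mul, ← map_smul, ← map_smul, smul_eq_mul, mul_one, Submodule.mkQ_apply,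
      (Submodule.Quotient.mk_eq_zero K).2 ht, map_zero]

theorem phi_le_one {M : ModuleCat.{0} R} (h : Nontrivial (Ext M M 1)) : phi M ≤ 1 :=
  iInf_le_of_le 1 (iInf_le_of_le le_rfl (iInf_le_of_le h le_rfl))

theorem one_lt_phi {M : ModuleCat.{0} R} (h : Subsingleton (Ext M M 1)) : 1 < phi M := by
  have h2 : (2 : ℕ∞) ≤ phi M := by
    refine le_iInf (fun r => le_iInf (fun hr => le_iInf (fun hn => ?_)))
    rcases eq_or_lt_of_le hr with h1 | h1
    · subst h1
      exact absurd hn (not_nontrivial _)
    · exact_mod_cast h1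
  exact lt_of_lt_of_le (by norm_num) h2

end Pool.Agent.P.MP_f9a7a1_al
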