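import Mathlib

set_option autoImplicit false

namespace Pool.Agent.P.MP_f9a7a1_al

open CategoryTheory

/-- The least `r ≥ 1` with `Ext^r(M, M) ≠ 0`, and `⊤` if there is none. -/
noncomputable def phi {R : Type} [Ring R] (M : ModuleCat.{0} R) : ℕ∞ :=
  ⨅ (r : ℕ) (_ : 1 ≤ r) (_ : Nontrivial (Abelian.Ext M M r)), (r : ℕ∞)

end Pool.Agent.P.MP_f9a7a1_al
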