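import Mathlib

set_option autoImplicit false
set_option linter.unusedSectionVars false

namespace Pool.Agent.P.MP_f9a7a1_al.Fr

variable {p : ℕ} [Fact p.Prime] {F : Type} [Field F] [Fintype F] [CharP F p]
  {k : Type} [Field k] [Algebra F k] {Λ : Type} [CommRing Λ] [Algebra k Λ]

/-- The eigenvectors in the group algebra of the translations. -/
noncomputable def gen (k : Type) [Field k] [Algebra F k] {A : Type} [Ring A] [Algebra k A]
    (u : F → A) (s : ℕ) : A := ∑ β : F, algebraMap F k (β ^ s)⁻¹ • u β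

theorem sum_inv_pow (hF : Fintype.card F = p ^ 2) {s : ℕ} (hs : s ≤ p) :
    ∑ β : F, (β ^ s)⁻¹ = 0 := by
  have h2 := (Fact.out : p.Prime).two_le
  rw [← FiniteField.sum_pow_lt_card_sub_one F s (by
    rw [hF, Nat.lt_sub_iff_add_lt]
    nlinarith)]
  exact Fintype.sum_equiv (Equiv.inv F) _ _ fun β => by simp

theorem sum_self {s : ℕ} (hs : s ≠ 0) : ∑ β : F, (β ^ s)⁻¹ * β ^ s = -1 := by
  classical
  have h : ∀ β : F, (β ^ s)⁻¹ * β ^ s = 1 - if β = 0 then 1 else 0 := fun β => by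
    split_ifs with h
    · simp [h, hs]
    · rw [inv_mul_cancel₀ (pow_ne_zero _ h), sub_zero]
  simp [h, Finset.sum_sub_distrib]

theorem sum_one_p (hF : Fintype.card F = p ^ 2) : ∑ β : F, (β ^ 1)⁻¹ * β ^ p = 0 := by
  have h2 := (Fact.out : p.Prime).two_le
  obtain ⟨j, rfl⟩ : ∃ j, p = j + 1 + 1 := ⟨p - 2, by omega⟩
  rw [← FiniteField.sum_pow_lt_card_sub_one F (j + 1) (by
    rw [hF, Nat.lt_sub_iff_add_lt]
    nlinarith)]
  refine Finset.sum_congr rfl fun β _ => ?_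
  by_cases h : β = 0
  · simp [h]
  · field_simp
    ring

theorem sum_p_one (hF : Fintype.card F = p ^ 2) : ∑ β : F, (β ^ p)⁻¹ * β ^ 1 = 0 := by
  have h2 := (Fact.out : p.Prime).two_le
  obtain ⟨j, rfl⟩ : ∃ j, p = j + 1 + 1 := ⟨p - 2, by omega⟩
  rw [← sum_inv_pow hF (s := j + 1) (by omega)]
  refine Finset.sum_congr rfl fun β _ => ?_
  by_cases h : β = 0
  · simp [h]
  · field_simp
    ring

variable [CharP Λ p] (hF : Fintype.card F = p ^ 2) (u : F → Λ) (h0 : u 0 = 1)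
  (hu : ∀ β γ, u (β + γ) = u β * u γ)

include h0 hu in
theorem u_pow (β : F) : u β ^ p = 1 := by
  have h : ∀ n : ℕ, u β ^ n = u (n * β) := by
    intro n
    induction n with
    | zero => simp [h0]
    | succ n ih => rw [pow_succ, ih, Nat.cast_succ, add_mul, one_mul, hu]
  rw [h, CharP.cast_eq_zero, zero_mul, h0]

include hF h0 hu in
theorem gen_pow {s : ℕ} (hs : s ≤ p) : gen k u s ^ p = 0 := by
  rw [gen, sum_pow_char]
  simp only [smul_pow, u_pow u h0 hu, ← map_pow (algebraMap F k)]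
  rw [← Finset.sum_smul, ← map_sum, ← sum_pow_char, sum_inv_pow hF hs,
    zero_pow (Fact.out : p.Prime).ne_zero, map_zero, zero_smul]

include hF h0 hu in
theorem aug_le {θ : F} (hθ : θ ^ p ≠ θ) (β : F) :
    u β - 1 ∈ Ideal.span {gen k u 1, gen k u p} := by
  have hp := (Fact.out : p.Prime)
  let I : Ideal Λ := Ideal.span (Set.range fun β => u β - 1)
  have hI : ∀ β, u β - 1 ∈ I := fun β => Ideal.subset_span ⟨β, rfl⟩
  let π := Ideal.Quotient.mkₐ k (I * I)
  let l : F →+ Λ ⧸ I * I := AddMonoidHom.mk' (fun β => π (u β - 1)) fun β γ => by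
    rw [← map_add]
    refine Ideal.Quotient.eq.2 ?_
    rw [hu, show u β * u γ - 1 - (u β - 1 + (u γ - 1)) = (u β - 1) * (u γ - 1) by ring]
    exact Ideal.mul_mem_mul (hI β) (hI γ)
  have hl : ∀ β, π (u β) = l β + 1 := fun β => by
    change _ = π (u β - 1) + 1
    rw [map_sub, map_one, sub_add_cancel]
  have hz : ∀ z : F, z ^ p = z → ∀ γ, l (z * γ) = algebraMap F k z • l γ := by
    intro z h γ
    obtain ⟨n, rfl⟩ := (mem_bot_iff_intCast p F).1 ((Subfield.mem_bot_iff_pow_eq_self F p).2 h)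
    rw [← zsmul_eq_mul, map_zsmul, map_intCast, Int.cast_smul_eq_zsmul]
  have hq : ∀ β : F, (β ^ p) ^ p = β := fun β => by
    rw [← pow_mul, ← sq, ← hF, FiniteField.pow_card]
  have hδ : θ - θ ^ p ≠ 0 := sub_ne_zero.2 hθ.symm
  obtain ⟨w0, w1, hw⟩ : ∃ w0 w1, ∀ β, l β =
      algebraMap F k (β ^ 1) • w0 + algebraMap F k (β ^ p) • w1 := by
    refine ⟨l 1 + algebraMap F k (θ - θ ^ p)⁻¹ • (l θ - algebraMap F k θ • l 1),
      -algebraMap F k (θ - θ ^ p)⁻¹ • (l θ - algebraMap F k θ • l 1), fun β => ?_⟩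
    have h1 : ((β - β ^ p) * (θ - θ ^ p)⁻¹) ^ p = (β - β ^ p) * (θ - θ ^ p)⁻¹ := by
      rw [mul_pow, inv_pow, sub_pow_char, sub_pow_char, hq, hq, ← neg_sub β, ← neg_sub θ,
        inv_neg, neg_mul_neg]
    have h2 : (β - (β - β ^ p) * (θ - θ ^ p)⁻¹ * θ) ^ p =
        β - (β - β ^ p) * (θ - θ ^ p)⁻¹ * θ := by
      rw [sub_pow_char, mul_pow, h1]
      field_simp
      ring
    have h3 : β = (β - (β - β ^ p) * (θ - θ ^ p)⁻¹ * θ) * 1 +
        (β - β ^ p) * (θ - θ ^ p)⁻¹ * θ := by ring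
    conv_lhs => rw [h3, map_add, hz _ h2, hz _ h1]
    simp only [map_sub, map_mul, pow_one]
    module
  have hg : ∀ s, s ≤ p → π (gen k u s) = algebraMap F k (∑ β : F, (β ^ s)⁻¹ * β ^ 1) • w0 +
      algebraMap F k (∑ β : F, (β ^ s)⁻¹ * β ^ p) • w1 := by
    intro s hs
    have h1 := congrArg (fun z => algebraMap F k z • (1 : Λ ⧸ I * I)) (sum_inv_pow hF hs)
    simp only [map_sum, Finset.sum_smul, map_zero, zero_smul] at h1
    simp only [gen, map_sum, map_smul, hl, hw, smul_add, Finset.sum_add_distrib, h1, smul_smul,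
      map_mul, Finset.sum_smul, add_zero]
  have h1 := hg 1 hp.one_le
  have h2 := hg p le_rfl
  rw [sum_self one_ne_zero, sum_one_p hF] at h1
  rw [sum_self hp.ne_zero, sum_p_one hF] at h2
  refine Submodule.le_of_le_smul_of_le_jacobson_bot (I := I) (N' := I)
    (Submodule.fg_span (Set.finite_range _)) ?_ ?_ (hI β)
  · rw [Ideal.jacobson_bot]
    refine le_trans (Ideal.span_le.2 ?_) (nilradical_le_jacobson Λ)
    rintro _ ⟨β, rfl⟩
    exact mem_nilradical.2 ⟨p, by rw [sub_pow_char, u_pow u h0 hu, one_pow, sub_self]⟩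
  · refine Ideal.span_le.2 ?_
    rintro _ ⟨β, rfl⟩
    have h3 : u β - 1 + (algebraMap F k (β ^ 1) • gen k u 1 +
        algebraMap F k (β ^ p) • gen k u p) ∈ I * I := by
      refine Ideal.Quotient.eq_zero_iff_mem.1 (?_ : π _ = 0)
      rw [map_add, map_add, map_smul, map_smul, h1, h2, map_sub, map_one, hl, hw]
      simp only [map_neg, map_one, map_zero]
      module
    have h4 : algebraMap F k (β ^ 1) • gen k u 1 + algebraMap F k (β ^ p) • gen k u p ∈
        Ideal.span {gen k u 1, gen k u p} :=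
      add_mem (Submodule.smul_of_tower_mem _ _ (Ideal.subset_span (Or.inl rfl)))
        (Submodule.smul_of_tower_mem _ _ (Ideal.subset_span (Or.inr rfl)))
    have h5 := sub_mem (Submodule.mem_sup_right (S := Ideal.span {gen k u 1, gen k u p}) h3)
      (Submodule.mem_sup_left h4)
    rwa [add_sub_cancel_right] at h5

omit [CharP Λ p] [Fact p.Prime] in
theorem mem_span_mon {x y : Λ} (hx : x ^ p = 0) (hy : y ^ p = 0)
    (h : ∀ v : Λ, ∃ κ : k, v - κ • 1 ∈ Ideal.span {x, y}) (v : Λ) :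
    v ∈ Submodule.span k {z | ∃ a b : ℕ, z = x ^ a * y ^ b} := by
  let W := Submodule.span k {z | ∃ a b : ℕ, z = x ^ a * y ^ b}
  have hW : ∀ w ∈ W, w * x ∈ W ∧ w * y ∈ W := by
    intro w hw
    induction hw using Submodule.span_induction with
    | mem z hz =>
      obtain ⟨a, b, rfl⟩ := hz
      exact ⟨Submodule.subset_span ⟨a + 1, b, by ring⟩, Submodule.subset_span ⟨a, b + 1, by ring⟩⟩
    | zero => simp
    | add a b _ _ h1 h2 =>
      rw [add_mul, add_mul]
      exact ⟨add_mem h1.1 h2.1, add_mem h1.2 h2.2⟩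
    | smul a b _ h1 =>
      rw [smul_mul_assoc, smul_mul_assoc]
      exact ⟨W.smul_mem a h1.1, W.smul_mem a h1.2⟩
  have key : ∀ (n : ℕ) (v : Λ), ∃ w ∈ W, v - w ∈ Ideal.span {x, y} ^ n := by
    intro n
    induction n with
    | zero => exact fun v => ⟨0, zero_mem _, by simp⟩
    | succ n ih =>
      intro v
      obtain ⟨κ, hκ⟩ := h v
      obtain ⟨r, s, hrs⟩ := Ideal.mem_span_pair.1 hκ
      obtain ⟨w1, h1, h1'⟩ := ih r
      obtain ⟨w2, h2, h2'⟩ := ih s
      refine ⟨κ • 1 + w1 * x + w2 * y, add_mem (add_mem (W.smul_mem κ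
        (Submodule.subset_span ⟨0, 0, by simp⟩)) (hW _ h1).1) (hW _ h2).2, ?_⟩
      rw [show v - (κ • 1 + w1 * x + w2 * y) = (r - w1) * x + (s - w2) * y by
        linear_combination -hrs, pow_succ]
      exact add_mem (Ideal.mul_mem_mul h1' (Ideal.subset_span (Or.inl rfl)))
        (Ideal.mul_mem_mul h2' (Ideal.subset_span (Or.inr rfl)))
  obtain ⟨n, hn⟩ : IsNilpotent (Ideal.span {x, y}) := by
    refine (Ideal.FG.isNilpotent_iff_le_nilradical (Submodule.fg_span (Set.toFinite _))).2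
      (Ideal.span_le.2 ?_)
    rintro _ (rfl | rfl)
    · exact ⟨p, hx⟩
    · exact ⟨p, hy⟩
  obtain ⟨w, hw, h1⟩ := key n v
  rw [hn, Ideal.zero_eq_bot, Ideal.mem_bot, sub_eq_zero] at h1
  exact h1 ▸ hw

include hF h0 hu in
theorem u_mem {θ : F} (hθ : θ ^ p ≠ θ) (hs : ∀ v : Λ, v ∈ Submodule.span k (Set.range u))
    (v : Λ) : v ∈ Submodule.span k {z | ∃ a b : ℕ, z = gen k u 1 ^ a * gen k u p ^ b} := by
  refine mem_span_mon (gen_pow hF u h0 hu (Fact.out : p.Prime).one_le)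
    (gen_pow hF u h0 hu le_rfl) (fun v => ?_) v
  induction hs v using Submodule.span_induction with
  | mem z hz =>
    obtain ⟨β, rfl⟩ := hz
    exact ⟨1, by simpa using aug_le hF u h0 hu hθ β⟩
  | zero => exact ⟨0, by simp⟩
  | add a b _ _ h1 h2 =>
    obtain ⟨κ, h1⟩ := h1
    obtain ⟨κ', h2⟩ := h2
    exact ⟨κ + κ', by
      rw [add_smul, add_sub_add_comm]
      exact add_mem h1 h2⟩
  | smul a b _ h1 =>
    obtain ⟨κ, h1⟩ := h1
    exact ⟨a * κ, by
      rw [mul_smul, ← smul_sub]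
      exact Submodule.smul_of_tower_mem _ _ h1⟩

end Pool.Agent.P.MP_f9a7a1_al.Fr
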