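import Pool.Agent.P.MP_f9a7a1_al.FrExt

set_option autoImplicit false

namespace Pool.Agent.P.MP_f9a7a1_al.Fr

open CategoryTheory Abelian

section Arith

variable {r p m : ℕ} (hp : p = 2 * r + 1) (hm : m = 2 * r * (r + 1))

include hp hm

theorem sq_one : (p : ZMod m) * p = 1 := by
  have h : p * p = 2 * m + 1 := by
    rw [hp, hm]
    ring
  rw [← Nat.cast_mul, h]
  simp

theorem wt_cast (a b : ℕ) : (wt p a : ZMod m) + p * wt p b =
    ((a % 2 + b / 2 + p * (a / 2 + b % 2) : ℕ) : ZMod m) := by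
  have h := sq_one hp hm
  simp only [wt]
  push_cast
  linear_combination ((b / 2 : ℕ) : ZMod m) * h

theorem ne_zero_of_small (hr : 1 ≤ r) {α β : ℕ} (h0 : 1 ≤ α + β) (h1 : α + β < 2 * r) :
    ((α + p * β : ℕ) : ZMod m) ≠ 0 := by
  rw [ne_eq, ZMod.natCast_eq_zero_iff]
  rintro ⟨j, hj⟩
  subst hp hm
  rcases j with _ | _ | j
  · have : β = 0 := by
      by_contra h
      have := Nat.mul_pos (show 0 < 2 * r + 1 by omega) (Nat.pos_of_ne_zero h)
      omega
    subst this
    omega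
  · rcases lt_trichotomy β r with h | h | h
    · nlinarith
    · nlinarith
    · nlinarith
  · nlinarith [Nat.zero_le (2 * r * (r + 1) * j)]

theorem mul_ne {s t : ℕ} (hs : s < m) (ht : t < m) (h : s ≠ t) :
    (p : ZMod m) * s ≠ p * t := by
  intro h1
  have h2 := sq_one hp hm
  have h3 : (s : ZMod m) = t := by linear_combination (p : ZMod m) * h1 - (s - t : ZMod m) * h2
  exact h (((ZMod.natCast_eq_natCast_iff' s t m).1 h3 |>.trans (Nat.mod_eq_of_lt ht)) ▸
    (Nat.mod_eq_of_lt hs).symm)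

theorem wt_ne_one (hr : 2 ≤ r) {n : ℕ} (h0 : 2 ≤ n) (h1 : n < 2 * p) : (wt p n : ZMod m) ≠ 1 := by
  have h2 := sq_one hp hm
  have hpm : p < m := by
    subst hp hm
    nlinarith
  intro h
  simp only [wt] at h
  push_cast at h
  rcases Nat.mod_two_eq_zero_or_one n with h3 | h3
  · rw [h3] at h
    exact mul_ne hp hm (s := n / 2) (t := p) (by omega) hpm (by omega)
      (by linear_combination h - h2)
  · rw [h3] at h
    exact mul_ne hp hm (s := n / 2) (t := 0) (by omega) (by omega) (by omega)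
      (by linear_combination h)

theorem wt_ne_zero (hr : 2 ≤ r) {n : ℕ} (h0 : 1 ≤ n) (h1 : n + 1 < 2 * p) :
    (wt p n : ZMod m) ≠ 0 := by
  have h2 := sq_one hp hm
  have hpm : 2 * p ≤ m + 1 := by
    subst hp hm
    nlinarith
  intro h
  simp only [wt] at h
  push_cast at h
  rcases Nat.mod_two_eq_zero_or_one n with h3 | h3
  · rw [h3] at h
    exact mul_ne hp hm (s := n / 2) (t := 0) (by omega) (by omega) (by omega)
      (by linear_combination h)
  · rw [h3] at h
    refine mul_ne hp hm (s := n / 2 + p) (t := 0) (by omega) (by omega) (by omega) ?_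
    push_cast
    linear_combination h + h2

end Arith

namespace Dat

variable {k R : Type} [Field k] [Ring R] [Algebra k R] {r p m : ℕ} (D : Dat k R p m) [NeZero m]
  (hr : 2 ≤ r) (hp : p = 2 * r + 1) (hm : m = 2 * r * (r + 1))

include hr hp hm

theorem phi_simple (d : ZMod m) : phi (D.Mo 1 1 d) = (2 * p - 4 : ℕ) := by
  refine phi_eq (by omega) (fun n h1 h2 => ?_) fun h => ?_
  · refine ((D.rowY (by omega) d n).1 d).2 fun a b hab h => ?_
    rw [add_assoc, add_eq_left, wt_cast hp hm] at h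
    exact ne_zero_of_small hp hm (by omega) (by omega) (by omega) h
  · refine ((D.rowY (by omega) d _).1 d).1 h (2 * (r - 1) + 1) (2 * (r - 1) + 1) (by omega) ?_
    rw [add_assoc, add_eq_left, wt_cast hp hm,
      show (2 * (r - 1) + 1) % 2 + (2 * (r - 1) + 1) / 2 = r by omega,
      show (2 * (r - 1) + 1) / 2 + (2 * (r - 1) + 1) % 2 = r by omega,
      show r + p * r = m by rw [hp, hm]; ring, ZMod.natCast_self]

include D in
theorem exists_big (hR : Module.Injective R R) [Module.Finite k R] :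
    ∃ N : ModuleCat.{0} R, Module.Finite R N ∧ ¬Module.Projective R N ∧
      phi N = (2 * p - 2 : ℕ) := by
  have p1 : 1 ≤ p := by omega
  have p2 : 2 ≤ p := by omega
  have ea := D.exactX (r := p - 1) (s := 1) (by omega) le_rfl le_rfl (c1 := 1) (c := 0) (by simp)
  have ec := D.exactY (r := p - 1) (s := 1) (by omega) p1 le_rfl (c1 := p) (c := 0) (by simp)
  have ed := D.exactY (r := 1) (s := p - 1) (by omega) p1 le_rfl (c1 := 1) (c := p) (by
    rw [Nat.cast_sub p1]
    linear_combination -sq_one hp hm)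
  have ia := D.mp_inj (r := p - 1) (s := 1) (by omega) le_rfl (add_zero p) le_rfl (c1 := 1)
    (c := 0) (by simp)
  have ic := D.mp_inj (r' := p - 1) (t := 1) (add_zero 1) p1 (by omega) le_rfl (c1 := p)
    (c := 0) (by simp)
  have id := D.mp_inj (r' := 1) (t := p - 1) (add_zero 1) p1 (by omega) le_rfl (c1 := 1)
    (c := p) (by
    rw [Nat.cast_sub p1]
    linear_combination -sq_one hp hm)
  have sa := D.pr_surj p1 (le_refl p) 0
  have sc := D.pr_surj (le_refl 1) p1 0
  have sd := D.pr_surj (le_refl 1) (Nat.sub_le p 1) p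
  generalize D.mp _ _ _ _ _ = fa at ea ia
  generalize D.mp _ _ _ _ _ = fc at ec ic
  generalize D.mp _ _ _ _ _ = fd at ed id
  generalize D.pr _ _ _ = ga at ea sa
  generalize D.pr _ _ _ = gc at ec sc
  generalize D.pr _ _ _ = gd at ed sd
  let N : Submodule R (D.M p p 0 × D.M 1 p p) :=
    LinearMap.eqLocus (ga ∘ₗ LinearMap.fst R _ _) (fc ∘ₗ gd ∘ₗ LinearMap.snd R _ _)
  have hN : ∀ z, z ∈ N ↔ ga z.1 = fc (gd z.2) := fun z => Iff.rfl
  let Ω : Submodule R (D.M p p 0) := LinearMap.ker (gc ∘ₗ ga)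
  have s1 := short (LinearMap.codRestrict N (LinearMap.inl R _ _ ∘ₗ fa) fun j => (hN _).2 (by
      simp [ea.apply_apply_eq_zero])) (LinearMap.snd R _ _ ∘ₗ N.subtype)
    (fun a b h => ia (congrArg (fun z => z.1.1) h))
    (fun v => by
      obtain ⟨u, hu⟩ := sa (fc (gd v))
      exact ⟨⟨(u, v), hu⟩, rfl⟩)
    (fun z => ⟨fun h => by
      have h1 : z.1.2 = 0 := h
      have h2 := (hN _).1 z.2
      rw [h1, map_zero, map_zero] at h2
      obtain ⟨j, hj⟩ := (ea _).1 h2
      exact ⟨j, Subtype.ext (Prod.ext hj h1.symm)⟩, fun ⟨j, hj⟩ => hj ▸ rfl⟩)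
  have s2 := short (LinearMap.codRestrict N (LinearMap.inr R _ _ ∘ₗ fd) fun j => (hN _).2 (by
      simp [ed.apply_apply_eq_zero]))
    (LinearMap.codRestrict Ω (LinearMap.fst R _ _ ∘ₗ N.subtype) fun z => by
      change gc (ga z.1.1) = 0
      rw [(hN _).1 z.2, ec.apply_apply_eq_zero])
    (fun a b h => id (congrArg (fun z => z.1.2) h))
    (fun u => by
      obtain ⟨w, hw⟩ := (ec _).1 (show gc (ga u.1) = 0 from u.2)
      obtain ⟨v, rfl⟩ := sd w
      exact ⟨⟨(u.1, v), hw.symm⟩, rfl⟩)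
    (fun z => ⟨fun h => by
      have h1 : z.1.1 = 0 := congrArg Subtype.val h
      have h2 := (hN _).1 z.2
      rw [h1, map_zero] at h2
      obtain ⟨j, hj⟩ := (ed _).1 (ic (h2.symm.trans (map_zero fc).symm))
      exact ⟨j, Subtype.ext (Prod.ext h1.symm hj)⟩, fun ⟨j, hj⟩ => by
      subst hj
      exact Subtype.ext rfl⟩)
  have s3 := short Ω.subtype (gc ∘ₗ ga) Ω.injective_subtype (sc.comp sa)
    (LinearMap.exact_subtype_ker_map _)
  have vJ : ∀ d n, (wt p (n + 1) : ZMod m) ≠ d → V (D.Mo (p - 1) p 1) (D.Mo 1 1 d) n :=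
    fun d n h => ((D.rowX p2 d n).2 1).2 fun h' => h (by linear_combination h')
  have vQ : ∀ d n, V (D.Mo 1 p p) (D.Mo 1 1 d) n ↔ (wt p (n + 2) : ZMod m) ≠ d := fun d n => by
    rw [(D.rowX p2 d n).1, wt_add_two, Nat.cast_add, add_comm]
  have vΩ : ∀ n, n + 3 < 2 * p → V (ModuleCat.of R N) (ModuleCat.of R Ω) (n + 1) := fun n h =>
    d1 s3 (c2 s1 (vJ 0 n (wt_ne_zero hp hm hr (by omega) (by omega)))
      ((vQ 0 n).2 (wt_ne_zero hp hm hr (by omega) (by omega)))) (D.V_inj hR 0 _ n)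
  have hbig : ¬V (ModuleCat.of R N) (ModuleCat.of R N) (2 * p - 4 + 1 + 1) := fun h => by
    refine (vQ 1 _).1 (c3 s1 (vJ 1 _ (wt_ne_one hp hm hr (by omega) (by omega)))
      (d1 s2 (vΩ _ (by omega)) h)) ?_
    rw [wt, show (2 * p - 4 + 1 + 1 + 2) / 2 = p by omega,
      show (2 * p - 4 + 1 + 1 + 2) % 2 = 0 by omega, add_zero, Nat.cast_mul, sq_one hp hm]
  have : Module.Finite k N := Module.Finite.of_injective (N.subtype.restrictScalars k)
    N.injective_subtype
  refine ⟨ModuleCat.of R N, Module.Finite.of_restrictScalars_finite k R N, fun h => hbig fun x =>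
    Ext.eq_zero_of_projective x, ?_⟩
  rw [show 2 * p - 2 = 2 * p - 4 + 1 + 1 by omega]
  refine phi_eq (by omega) (fun n h1 h2 => ?_) hbig
  obtain ⟨n, rfl⟩ := Nat.exists_eq_add_of_le' h1
  exact d2 s2 (c2 s1 (vJ 1 _ (wt_ne_one hp hm hr (by omega) (by omega)))
    ((vQ 1 _).2 (wt_ne_one hp hm hr (by omega) (by omega)))) (vΩ n (by omega))

end Dat

end Pool.Agent.P.MP_f9a7a1_al.Fr
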