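import Pool.Agent.P.MP_f9a7a1_al.FrMod

set_option autoImplicit false

namespace Pool.Agent.P.MP_f9a7a1_al.Fr

open CategoryTheory Abelian

/-- The weight of the generator in degree `n` of the periodic resolution. -/
def wt (p n : ℕ) : ℕ := p * (n / 2) + n % 2

theorem wt_add_two (p n : ℕ) : wt p (n + 2) = wt p n + p := by
  rw [wt, wt, Nat.add_div_right n two_pos, Nat.add_mod_right]
  ring

namespace Dat

variable {k R : Type} [Field k] [Ring R] [Algebra k R] {p m : ℕ} (D : Dat k R p m)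

theorem x_mul_mem (u : R) : D.x * u ∈ D.I 1 1 := by
  induction u using D.ind with
  | h0 => simp
  | ha u v h1 h2 =>
    rw [mul_add]
    exact add_mem h1 h2
  | hs r u h1 =>
    rw [mul_smul_comm]
    exact Submodule.smul_of_tower_mem _ _ h1
  | hm a b c =>
    rw [mon, ← mul_assoc, ← mul_assoc, ← pow_succ']
    exact D.mon_mem c (Or.inl (Nat.le_add_left 1 a))

theorem y_mul_mem (u : R) : D.y * u ∈ D.I 1 1 := by
  induction u using D.ind with
  | h0 => simp
  | ha u v h1 h2 =>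
    rw [mul_add]
    exact add_mem h1 h2
  | hs r u h1 =>
    rw [mul_smul_comm]
    exact Submodule.smul_of_tower_mem _ _ h1
  | hm a b c =>
    rw [mon, ← mul_assoc, ← mul_assoc, ← (D.comm.pow_left a).eq, mul_assoc (D.x ^ a), ← pow_succ']
    exact D.mon_mem c (Or.inr (Nat.le_add_left 1 b))

variable [NeZero m]

theorem e_mul_mem {c d : ZMod m} (h : c ≠ d) (u : R) : D.e c * u * D.e d ∈ D.I 1 1 := by
  induction u using D.ind with
  | h0 => simp
  | ha u v h1 h2 =>
    rw [mul_add, add_mul]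
    exact add_mem h1 h2
  | hs r u h1 =>
    rw [mul_smul_comm, smul_mul_assoc]
    exact Submodule.smul_of_tower_mem _ _ h1
  | hm a b c' =>
    by_cases h1 : 1 ≤ a ∨ 1 ≤ b
    · exact D.I_mul_e (Submodule.smul_mem _ (D.e c) (D.mon_mem c' h1)) d
    · obtain rfl : a = 0 := by omega
      obtain rfl : b = 0 := by omega
      rw [mon, pow_zero, pow_zero, one_mul, one_mul, D.ee]
      split_ifs
      · rw [D.ee, if_neg h]
        exact zero_mem _
      · rw [zero_mul]
        exact zero_mem _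

theorem kill {i j s t : ℕ} {c d : ZMod m} (hst : 1 ≤ s + t) (φ : D.M i j c →ₗ[R] D.M 1 1 d)
    (u : R) : φ (Submodule.Quotient.mk (u * (D.x ^ s * D.y ^ t))) = 0 := by
  have h1 : (Submodule.Quotient.mk (u * (D.x ^ s * D.y ^ t)) : D.M i j c) =
      u • (D.x ^ s * D.y ^ t) • Submodule.Quotient.mk 1 := by
    rw [← Submodule.Quotient.mk_smul, ← Submodule.Quotient.mk_smul, smul_eq_mul, smul_eq_mul,
      mul_one]
  obtain ⟨v, hv⟩ := Submodule.Quotient.mk_surjective _ (φ (Submodule.Quotient.mk 1))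
  rw [h1, map_smul, map_smul, ← hv, ← Submodule.Quotient.mk_smul,
    (Submodule.Quotient.mk_eq_zero (D.L 1 1 d)).2, smul_zero]
  refine D.I_mul_e (u := D.x ^ s * D.y ^ t * v) ?_ d
  rcases t with _ | t
  · obtain ⟨s, rfl⟩ := Nat.exists_eq_add_of_le' hst
    rw [pow_zero, mul_one, pow_succ, mul_assoc]
    exact Submodule.smul_mem _ _ (D.x_mul_mem v)
  · rw [pow_succ, ← mul_assoc, mul_assoc]
    exact Submodule.smul_mem _ _ (D.y_mul_mem v)

theorem V_zero (hp : 0 < p) {i j : ℕ} (hi : 1 ≤ i) (hj : 1 ≤ j) (c d : ZMod m) :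
    V (D.Mo i j c) (D.Mo 1 1 d) 0 ↔ c ≠ d := by
  rw [V.zero_iff]
  constructor
  · rintro h rfl
    have h1 : D.pr hi hj c (Submodule.Quotient.mk 1) = 0 :=
      congrArg (fun f => f.hom (Submodule.Quotient.mk 1)) (h (ModuleCat.ofHom (D.pr hi hj c)))
    have h2 : 1 * D.e c ∈ D.I 1 1 := (Submodule.Quotient.mk_eq_zero (D.L 1 1 c)).1 h1
    have h3 := D.mem_I.1 h2 ⟨0, hp⟩ ⟨0, hp⟩ c one_pos one_pos
    have h4 := D.repr_mon 0 0 c ⟨0, hp⟩ ⟨0, hp⟩ c
    rw [mon, pow_zero, pow_zero, one_mul, h3] at h4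
    simp at h4
  · intro h f
    refine ModuleCat.hom_ext (LinearMap.ext fun q => ?_)
    obtain ⟨u, rfl⟩ := Submodule.Quotient.mk_surjective _ q
    have h1 : (Submodule.Quotient.mk u : D.M i j c) = u • D.e c • Submodule.Quotient.mk 1 := by
      rw [← Submodule.Quotient.mk_smul, ← Submodule.Quotient.mk_smul, smul_eq_mul, smul_eq_mul,
        mul_one, mk_e]
    obtain ⟨v, hv⟩ := Submodule.Quotient.mk_surjective _ (f.hom (Submodule.Quotient.mk 1))
    change f.hom (Submodule.Quotient.mk u) = 0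
    rw [h1, map_smul, map_smul, ← hv, ← Submodule.Quotient.mk_smul,
      (Submodule.Quotient.mk_eq_zero (D.L 1 1 d) (x := D.e c • v)).2 (D.e_mul_mem h v), smul_zero]

omit [NeZero m] in
theorem retract (c : ZMod m) : ∃ (i : D.Mo p p c ⟶ ModuleCat.of R R)
    (r : ModuleCat.of R R ⟶ D.Mo p p c), i ≫ r = 𝟙 _ := by
  refine ⟨ModuleCat.ofHom ((D.L p p c).liftQ (LinearMap.toSpanSingleton R R (D.e c))
    fun u hu => ?_), ModuleCat.ofHom (D.L p p c).mkQ, ?_⟩
  · rw [mem_L, I_bot] at hu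
    exact hu
  · refine ModuleCat.hom_ext (LinearMap.ext fun q => ?_)
    obtain ⟨u, rfl⟩ := Submodule.Quotient.mk_surjective _ q
    exact D.mk_e p p c u

omit [NeZero m] in
theorem V_proj (c : ZMod m) (Y : ModuleCat.{0} R) (n : ℕ) : V (D.Mo p p c) Y (n + 1) := by
  obtain ⟨i, r, h⟩ := D.retract c
  exact V.left i r h fun x => Ext.eq_zero_of_projective x

omit [NeZero m] in
theorem V_inj (hR : Module.Injective R R) (c : ZMod m) (Y : ModuleCat.{0} R) (n : ℕ) :
    V Y (D.Mo p p c) (n + 1) := by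
  obtain ⟨i, r, h⟩ := D.retract c
  have := Module.injective_object_of_injective_module R R
  exact V.right i r h fun x => Ext.eq_zero_of_injective x

theorem sX {r s i j : ℕ} (h : r + s = i) (hi : i ≤ p) (hj : j ≤ p) {c1 c : ZMod m}
    (hc : c1 = c + p * (0 : ℕ) + s) : (ModuleCat.shortComplexOfCompEqZero _ _
      (D.exactX h hi hj hc).linearMap_comp_eq_zero).ShortExact :=
  short _ _ (D.mp_inj _ _ _ _ _) (D.pr_surj _ _ _) (D.exactX h hi hj hc)

theorem sY {r s i j : ℕ} (h : r + s = j) (hi : i ≤ p) (hj : j ≤ p) {c1 c : ZMod m}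
    (hc : c1 = c + p * s + (0 : ℕ)) : (ModuleCat.shortComplexOfCompEqZero _ _
      (D.exactY h hi hj hc).linearMap_comp_eq_zero).ShortExact :=
  short _ _ (D.mp_inj _ _ _ _ _) (D.pr_surj _ _ _) (D.exactY h hi hj hc)

theorem shiftX {r s : ℕ} (h : r + s = p) (hs : 1 ≤ s) (c d : ZMod m) (n : ℕ) :
    V (D.Mo s p c) (D.Mo 1 1 d) (n + 1) ↔ V (D.Mo r p (c + s)) (D.Mo 1 1 d) n := by
  have hS := D.sX h le_rfl le_rfl (c1 := c + s) (c := c) (by simp)
  refine ⟨c1 hS fun x => ?_, fun h1 => c3 hS h1 (D.V_proj c _ n)⟩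
  rcases n with _ | n
  · obtain ⟨f, rfl⟩ := (Ext.mk₀_bijective _ _).2 x
    rw [Ext.mk₀_comp_mk₀, ← Ext.mk₀_zero]
    congr 1
    refine ModuleCat.hom_ext (LinearMap.ext fun q => ?_)
    obtain ⟨u, rfl⟩ := Submodule.Quotient.mk_surjective _ q
    exact D.kill (s := s) (t := 0) hs f.hom u
  · rw [D.V_proj c _ n x, Ext.comp_zero]

theorem rowX (hp : 2 ≤ p) (d : ZMod m) (n : ℕ) :
    (∀ c, V (D.Mo 1 p c) (D.Mo 1 1 d) n ↔ c + wt p n ≠ d) ∧
    (∀ c, V (D.Mo (p - 1) p c) (D.Mo 1 1 d) n ↔ c + wt p (n + 1) ≠ d + 1) := by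
  induction n with
  | zero =>
    refine ⟨fun c => ?_, fun c => ?_⟩
    · rw [D.V_zero (by omega) le_rfl (by omega)]
      simp [wt]
    · rw [D.V_zero (by omega) (by omega) (by omega)]
      simp [wt]
  | succ n ih =>
    refine ⟨fun c => ?_, fun c => ?_⟩
    · rw [D.shiftX (r := p - 1) (by omega) le_rfl, ih.2, Nat.cast_one, add_right_comm, ne_eq,
        add_left_inj]
    · rw [D.shiftX (r := 1) (by omega) (by omega), ih.1, wt_add_two, Nat.cast_sub (by omega),
        Nat.cast_add, Nat.cast_one]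
      refine not_congr ⟨fun h => ?_, fun h => ?_⟩
      · linear_combination h
      · linear_combination h

theorem infl (d : ZMod m) (n : ℕ) : ∀ (r s : ℕ) (h : r + s = p) (_ : 1 ≤ r) (hs : 1 ≤ s)
    (c : ZMod m) (α : Ext (D.Mo s p c) (D.Mo 1 1 d) n), ∃ β : Ext (D.Mo s 1 c) (D.Mo 1 1 d) n,
      (Ext.mk₀ (ModuleCat.ofHom (D.pr le_rfl (hs.trans (h ▸ Nat.le_add_left s r)) c))).comp β
        (zero_add n) = α := by
  induction n with
  | zero =>
    intro r s h hr hs c α
    obtain ⟨f, rfl⟩ := (Ext.mk₀_bijective _ _).2 α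
    refine ⟨Ext.mk₀ (ModuleCat.ofHom ((D.L s 1 c).liftQ (f.hom ∘ₗ (D.L s p c).mkQ)
      fun u hu => ?_)), ?_⟩
    · obtain ⟨a, b, hab⟩ := Submodule.mem_span_pair.1 (D.mem_L.1 hu)
      change _ = u * D.e c at hab
      change f.hom (Submodule.Quotient.mk u) = 0
      have h1 := D.kill (s := s) (t := 0) hs f.hom a
      have h2 := D.kill (s := 0) (t := 1) le_rfl f.hom b
      rw [pow_zero, mul_one] at h1
      rw [pow_zero, one_mul] at h2
      rw [← D.mk_e, ← hab, Submodule.Quotient.mk_add, map_add, smul_eq_mul, smul_eq_mul, h1, h2,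
        add_zero]
    · rw [Ext.mk₀_comp_mk₀]
      congr 1
      refine ModuleCat.hom_ext (LinearMap.ext fun q => ?_)
      obtain ⟨u, rfl⟩ := Submodule.Quotient.mk_surjective _ q
      rfl
  | succ n ih =>
    intro r s h hr hs c α
    have hp : 1 ≤ p := by omega
    have hS := D.sX h le_rfl le_rfl (c1 := c + s) (c := c) (by simp)
    have hT := D.sX h le_rfl hp (c1 := c + s) (c := c) (by simp)
    obtain ⟨α', rfl⟩ := Ext.contravariant_sequence_exact₃ hS _ α (D.V_proj c _ n _) (n₀ := n)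
      (add_comm 1 n)
    obtain ⟨β', rfl⟩ := ih s r (by omega) hs hr (c + s) α'
    refine ⟨hT.extClass.comp β' (add_comm 1 n), ?_⟩
    have hn := ShortComplex.ShortExact.extClass_naturality hS hT (ShortComplex.homMk
      (ModuleCat.ofHom (D.pr le_rfl hp (c + s))) (ModuleCat.ofHom (D.pr le_rfl hp c))
      (ModuleCat.ofHom (D.pr le_rfl hp c))
      (ModuleCat.hom_ext (LinearMap.ext fun q => by
        obtain ⟨u, rfl⟩ := Submodule.Quotient.mk_surjective _ q
        rfl))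
      (ModuleCat.hom_ext (LinearMap.ext fun q => by
        obtain ⟨u, rfl⟩ := Submodule.Quotient.mk_surjective _ q
        rfl)))
    rw [← Ext.comp_assoc_of_second_deg_zero, ← Ext.comp_assoc _ _ _ (zero_add 1) (add_comm 1 n)
      (by omega)]
    exact congrArg (fun z => z.comp β' (add_comm 1 n)) hn.symm

theorem shiftY (hp : 2 ≤ p) {r s : ℕ} (h : r + s = p) (hs : 1 ≤ s) (c d : ZMod m) (n : ℕ) :
    V (D.Mo 1 s c) (D.Mo 1 1 d) (n + 1) ↔
      V (D.Mo 1 r (c + p * s)) (D.Mo 1 1 d) n ∧ V (D.Mo 1 p c) (D.Mo 1 1 d) (n + 1) := by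
  have hS := D.sY h (by omega : 1 ≤ p) le_rfl (c1 := c + p * s) (c := c) (by simp)
  have h0 : ∀ (n : ℕ) (x : Ext (D.Mo 1 p c) (D.Mo 1 1 d) n), (Ext.mk₀ (ModuleCat.ofHom
      (D.mp (add_zero 1) (by omega : 1 ≤ p) h le_rfl (c1 := c + p * s) (c := c) (by simp)))).comp
        x (zero_add n) = 0 := by
    intro n x
    obtain ⟨β, rfl⟩ := D.infl d n (p - 1) 1 (by omega) (by omega) le_rfl c x
    rw [Ext.mk₀_comp_mk₀_assoc]
    have : ModuleCat.ofHom (D.mp (add_zero 1) (by omega : 1 ≤ p) h le_rfl (c1 := c + p * s)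
        (c := c) (by simp)) ≫ ModuleCat.ofHom (D.pr le_rfl (by omega : 1 ≤ p) c) = 0 := by
      refine ModuleCat.hom_ext (LinearMap.ext fun q => ?_)
      obtain ⟨u, rfl⟩ := Submodule.Quotient.mk_surjective _ q
      exact D.kill (s := 0) (t := s) (by omega) (D.pr le_rfl (by omega : 1 ≤ p) c) u
    rw [this, Ext.mk₀_zero, Ext.zero_comp]
  exact ⟨fun h1 => ⟨c1 hS (h0 n) h1, c2' hS (h0 _) h1⟩, fun h1 => c3 hS h1.1 h1.2⟩

theorem rowY (hp : 2 ≤ p) (d : ZMod m) (n : ℕ) :
    (∀ c, V (D.Mo 1 1 c) (D.Mo 1 1 d) n ↔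
      ∀ a b, a + b = n → c + wt p a + p * wt p b ≠ d) ∧
    (∀ c, V (D.Mo 1 (p - 1) c) (D.Mo 1 1 d) n ↔
      ∀ a b, a + b = n → c + wt p a + p * wt p (b + 1) ≠ d + p) := by
  have key : ∀ (n : ℕ) (P : ℕ → ℕ → Prop), (∀ a b, a + b = n + 1 → P a b) ↔
      (∀ a b, a + b = n → P a (b + 1)) ∧ P (n + 1) 0 := fun n P =>
    ⟨fun h => ⟨fun a b hab => h _ _ (by omega), h _ _ rfl⟩, fun h a b hab => by
      rcases b with _ | b
      · obtain rfl : a = n + 1 := hab
        exact h.2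
      · exact h.1 a b (by omega)⟩
  have key0 : ∀ P : ℕ → ℕ → Prop, (∀ a b, a + b = 0 → P a b) ↔ P 0 0 := fun P =>
    ⟨fun h => h 0 0 rfl, fun h a b hab => by
      obtain rfl : a = 0 := by omega
      obtain rfl : b = 0 := by omega
      exact h⟩
  induction n with
  | zero =>
    refine ⟨fun c => ?_, fun c => ?_⟩
    · rw [D.V_zero (by omega) le_rfl le_rfl, key0]
      simp [wt]
    · rw [D.V_zero (by omega) le_rfl (by omega), key0]
      simp [wt]
  | succ n ih =>
    refine ⟨fun c => ?_, fun c => ?_⟩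
    · rw [D.shiftY hp (r := p - 1) (by omega) le_rfl, ih.2, (D.rowX hp d _).1, key]
      refine and_congr (forall₃_congr fun a b _ => not_congr ⟨fun h => ?_, fun h => ?_⟩) ?_
      · push_cast at h
        linear_combination h
      · push_cast
        linear_combination h
      · simp [wt]
    · rw [D.shiftY hp (r := 1) (by omega) (by omega), ih.1, (D.rowX hp d _).1, key]
      refine and_congr (forall₃_congr fun a b _ => ?_) ?_
      · rw [wt_add_two, Nat.cast_sub (by omega), Nat.cast_add, Nat.cast_one]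
        refine not_congr ⟨fun h => ?_, fun h => ?_⟩
        · linear_combination h
        · linear_combination h
      · simp [wt]

end Dat

end Pool.Agent.P.MP_f9a7a1_al.Fr
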