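import Pool.Agent.P.MP_f9a7a1_al.FrSim
import Pool.Agent.P.MP_f9a7a1_al.FrAlg

set_option autoImplicit false
set_option linter.unusedSectionVars false

namespace Pool.Agent.P.MP_f9a7a1_al.Fr

section Idem

variable {k R : Type} [Field k] [Ring R] [Algebra k R] {m : ℕ} [NeZero m]
  (χ : AddChar (ZMod m) k) (T : ZMod m → R)

/-- The idempotents of the cyclic group. -/
noncomputable def idm (c : ZMod m) : R := (m : k)⁻¹ • ∑ i, χ (-(c * i)) • T i

variable (hT : ∀ i j, T (i + j) = T i * T j)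

include hT in
theorem T_idm (j c : ZMod m) : T j * idm χ T c = χ (c * j) • idm χ T c := by
  rw [idm, mul_smul_comm, smul_comm (χ (c * j)), Finset.mul_sum, Finset.smul_sum (r := χ _)]
  congr 1
  refine Fintype.sum_equiv (Equiv.addLeft j) _ _ fun i => ?_
  rw [mul_smul_comm, ← hT, smul_smul, ← AddChar.map_add_eq_mul, Equiv.coe_addLeft]
  congr 2
  ring

include hT in
theorem idm_idm (hχ : χ.IsPrimitive) (hm : (m : k) ≠ 0) (c d : ZMod m) :
    idm χ T c * idm χ T d = if c = d then idm χ T c else 0 := by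
  have h : ∀ i, χ (-(c * i)) * χ (d * i) = χ (i * (d - c)) := fun i => by
    rw [← AddChar.map_add_eq_mul]
    congr 1
    ring
  conv_lhs => rw [idm]
  rw [smul_mul_assoc, Finset.sum_mul]
  simp only [smul_mul_assoc, T_idm χ T hT, smul_smul, h]
  rw [← Finset.sum_smul, AddChar.sum_mulShift _ hχ, smul_smul, ZMod.card]
  by_cases h1 : c = d
  · rw [if_pos h1, if_pos (sub_eq_zero.2 h1.symm), inv_mul_cancel₀ hm, one_smul, h1]
  · rw [if_neg h1, if_neg (fun h => h1 (sub_eq_zero.1 h).symm), Nat.cast_zero, mul_zero,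
      zero_smul]

theorem sum_idm (hχ : χ.IsPrimitive) (hm : (m : k) ≠ 0) : ∑ c, idm χ T c = T 0 := by
  simp only [idm]
  rw [← Finset.smul_sum, Finset.sum_comm]
  simp only [← Finset.sum_smul, ← mul_neg, AddChar.sum_mulShift _ hχ, neg_eq_zero, ZMod.card,
    Nat.cast_ite, Nat.cast_zero, ite_smul, zero_smul, Finset.sum_ite_eq', Finset.mem_univ, if_true]
  rw [smul_smul, inv_mul_cancel₀ hm, one_smul]

theorem mul_idm {z : R} {w : ZMod m} (hz : ∀ i, T i * z = χ (w * i) • (z * T i)) (c : ZMod m) :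
    z * idm χ T c = idm χ T (c + w) * z := by
  rw [idm, idm, mul_smul_comm, smul_mul_assoc, Finset.mul_sum, Finset.sum_mul]
  congr 1
  refine Finset.sum_congr rfl fun i _ => ?_
  rw [mul_smul_comm, smul_mul_assoc, hz, smul_smul, ← AddChar.map_add_eq_mul]
  congr 2
  ring

end Idem

variable {p : ℕ} [Fact p.Prime] {F : Type} [Field F] [Fintype F]
  {k : Type} [Field k] [Algebra F k] {G R : Type} [Group G] [Fintype G] [Ring R] [Algebra k R]

theorem exists_dat {m : ℕ} [NeZero m] (hF : Fintype.card F = p ^ 2) (hm : 2 * m + 1 = p ^ 2)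
    (ι : G →* R) (b : Module.Basis G k R) (hb : ∀ g, b g = ι g)
    (tr : Multiplicative F →* G) (τ : Fˣ →* G)
    (h1 : ∀ (a : Fˣ) (β : F), τ a * tr (.ofAdd β) = tr (.ofAdd ((a : F) ^ 2 * β)) * τ a)
    (h2 : ∀ a : Fˣ, a ^ 2 = 1 → τ a = 1) (h3 : ∀ g, ∃ β a, g = tr β * τ a)
    (h4 : ∀ β a β' a', tr β * τ a = tr β' * τ a' → β = β' ∧ a ^ 2 = a' ^ 2) :
    Nonempty (Dat k R p m) := by
  classical
  have hp := (Fact.out : p.Prime)
  have p2 := hp.two_le
  have : CharP F p := charP_of_card_eq_prime_pow hF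
  have : CharP k p := charP_of_injective_algebraMap (algebraMap F k).injective p
  have : CharP (MonoidAlgebra k (Multiplicative F)) p :=
    charP_of_injective_algebraMap (algebraMap k _).injective p
  obtain ⟨ζ, hζ⟩ := IsCyclic.exists_ofOrder_eq_natCard (α := Fˣ)
  have hgen : ∀ a : Fˣ, ∃ n : ℕ, ζ ^ n = a := fun a => by
    have : a ∈ Subgroup.zpowers ζ := by
      rw [Subgroup.eq_top_of_card_eq (Subgroup.zpowers ζ) (by rw [Nat.card_zpowers, hζ])]
      exact Subgroup.mem_top a
    exact (mem_powers_iff_mem_zpowers.2 this)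
  rw [Nat.card_units, Nat.card_eq_fintype_card, hF, ← hm, Nat.add_sub_cancel] at hζ
  have hθ : (ζ : F) ^ p ≠ ζ := fun h => by
    have h5 : ζ ^ (p - 1) = 1 := by
      refine mul_right_cancel (b := ζ) ?_
      rw [← pow_succ, Nat.sub_add_cancel hp.one_le, one_mul]
      exact Units.ext h
    have := Nat.le_of_dvd (by omega) (orderOf_dvd_of_pow_eq_one h5)
    rw [hζ, Nat.le_sub_iff_add_le hp.one_le, hm] at this
    nlinarith
  have ho : orderOf (ζ ^ 2) = m := by
    rw [orderOf_pow_of_dvd two_ne_zero (hζ ▸ dvd_mul_right 2 m), hζ,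
      Nat.mul_div_cancel_left m two_pos]
  have hω : IsPrimitiveRoot (algebraMap F k ((ζ : F) ^ 2)) m :=
    (IsPrimitiveRoot.coe_units_iff.2 (ho ▸ IsPrimitiveRoot.orderOf (ζ ^ 2))).map_of_injective
      (algebraMap F k).injective
  have hmk : (m : k) ≠ 0 := fun h => by
    have h5 := congrArg (Nat.cast : ℕ → k) hm
    simp [h, CharP.cast_eq_zero] at h5
  let χ := AddChar.zmodChar m hω.pow_eq_one
  have hχ : χ.IsPrimitive := AddChar.zmodChar_primitive_of_primitive_root m hω
  let T : ZMod m → R := fun i => ι (τ (ζ ^ i.val))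
  have ht : τ ζ ^ m = 1 := by
    rw [← map_pow]
    exact h2 _ (by rw [← pow_mul, mul_comm, ← hζ, pow_orderOf_eq_one])
  have hTn : ∀ n : ℕ, T n = ι (τ (ζ ^ n)) := fun n => by
    simp only [T, map_pow τ]
    rw [ZMod.val_natCast, ← pow_eq_pow_mod n ht]
  have hT : ∀ i j, T (i + j) = T i * T j := fun i j => by
    rw [← ZMod.natCast_zmod_val i, ← ZMod.natCast_zmod_val j, ← Nat.cast_add, hTn, hTn, hTn,
      pow_add, map_mul, map_mul]
  let U : F → R := fun β => ι (tr (.ofAdd β))
  have hz : ∀ (s : ℕ) i, T i * gen k U s = χ (s * i) • (gen k U s * T i) := by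
    intro s i
    rw [← ZMod.natCast_zmod_val i, ← Nat.cast_mul, hTn, AddChar.zmodChar_apply', gen,
      Finset.mul_sum, Finset.sum_mul, Finset.smul_sum]
    refine Fintype.sum_equiv (Equiv.mulLeft₀ (((ζ ^ i.val : Fˣ) : F) ^ 2)
      (pow_ne_zero _ (Units.ne_zero _))) _ _ fun β => ?_
    rw [mul_smul_comm, smul_mul_assoc, smul_smul, ← map_mul ι, h1, map_mul ι, ← map_pow,
      ← map_mul (algebraMap F k)]
    congr 2
    have := ζ.ne_zero
    rw [Equiv.mulLeft₀_apply, mul_pow, mul_inv, Units.val_pow_eq_pow_val, ← pow_mul, ← pow_mul,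
      ← pow_mul, show 2 * (s * i.val) = i.val * (2 * s) by ring, ← mul_assoc,
      mul_inv_cancel₀ (pow_ne_zero _ this), one_mul]
  let ψ : MonoidAlgebra k (Multiplicative F) →ₐ[k] R := MonoidAlgebra.lift k R _ (ι.comp tr)
  let u : F → MonoidAlgebra k (Multiplicative F) := fun β => .single (.ofAdd β) 1
  have u0 : u 0 = 1 := rfl
  have hu : ∀ β γ, u (β + γ) = u β * u γ := fun β γ => by
    simp only [u, MonoidAlgebra.single_mul_single, ofAdd_add, mul_one]
  have hψ : ∀ β, ψ (u β) = U β := fun β => by simp [ψ, u, U]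
  have hψ' : ∀ s, ψ (gen k u s) = gen k U s := fun s => by simp only [gen, map_sum, map_smul, hψ]
  have xp : gen k U 1 ^ p = 0 := by rw [← hψ', ← map_pow, gen_pow hF u u0 hu hp.one_le, map_zero]
  have yp : gen k U p ^ p = 0 := by rw [← hψ', ← map_pow, gen_pow hF u u0 hu le_rfl, map_zero]
  let f : Fin p × Fin p × ZMod m → R := fun s =>
    gen k U 1 ^ (s.1 : ℕ) * gen k U p ^ (s.2.1 : ℕ) * idm χ T s.2.2
  have hsp : ⊤ ≤ Submodule.span k (Set.range f) := by
    rw [← b.span_eq, Submodule.span_le]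
    rintro _ ⟨g, rfl⟩
    obtain ⟨β, a, rfl⟩ := h3 g
    obtain ⟨n, rfl⟩ := hgen a
    have h5 : ∀ v c, ψ v * idm χ T c ∈ Submodule.span k (Set.range f) := by
      intro v c
      have hv := u_mem (k := k) hF u u0 hu hθ (fun v => by
        have := (MonoidAlgebra.basis (Multiplicative F) k).mem_span v
        refine Submodule.span_mono ?_ this
        rintro _ ⟨β, rfl⟩
        exact ⟨β.toAdd, by simp [u]⟩) v
      induction hv using Submodule.span_induction with
      | mem z hz =>
        obtain ⟨i, j, rfl⟩ := hz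
        rw [map_mul, map_pow, map_pow, hψ', hψ']
        by_cases hi : i < p
        · by_cases hj : j < p
          · exact Submodule.subset_span ⟨(⟨i, hi⟩, ⟨j, hj⟩, c), rfl⟩
          · rw [pow_eq_zero_of_le (not_lt.1 hj) yp, mul_zero, zero_mul]
            exact zero_mem _
        · rw [pow_eq_zero_of_le (not_lt.1 hi) xp, zero_mul, zero_mul]
          exact zero_mem _
      | zero =>
        rw [map_zero, zero_mul]
        exact zero_mem _
      | add a b _ _ h1 h2 =>
        rw [map_add, add_mul]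
        exact add_mem h1 h2
      | smul a b _ h1 =>
        rw [map_smul, smul_mul_assoc]
        exact Submodule.smul_mem _ _ h1
    have h6 : T 0 = 1 := by simp [T]
    rw [hb, map_mul, ← hTn, ← mul_one (T n), ← h6, ← sum_idm χ T hχ hmk, Finset.mul_sum,
      Finset.mul_sum]
    refine Submodule.sum_mem _ fun c _ => ?_
    rw [T_idm χ T hT, mul_smul_comm]
    have h7 := h5 (u β.toAdd) c
    rw [hψ] at h7
    exact Submodule.smul_mem _ _ h7
  have hcard : Fintype.card (Fin p × Fin p × ZMod m) ≤ Module.finrank k R := by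
    rw [Module.finrank_eq_card_basis b]
    refine le_trans (le_of_eq ?_) (Fintype.card_le_of_injective
      (fun s : F × ZMod m => tr (.ofAdd s.1) * τ (ζ ^ s.2.val)) fun s t h => ?_)
    · simp [hF, sq, mul_assoc]
    · obtain ⟨h5, h6⟩ := h4 _ _ _ _ h
      rw [← pow_mul, ← pow_mul, mul_comm, mul_comm _ 2, pow_mul, pow_mul] at h6
      exact Prod.ext h5 (ZMod.val_injective m (pow_injOn_Iio_orderOf
        ((ZMod.val_lt _).trans_eq ho.symm) ((ZMod.val_lt _).trans_eq ho.symm) h6))
  exact ⟨{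
    x := gen k U 1
    y := gen k U p
    e := idm χ T
    ee := idm_idm χ T hT hχ hmk
    xe := fun c => mul_idm χ T (fun i => by simpa using hz 1 i) c
    ye := mul_idm χ T (hz p)
    comm := by
      rw [← hψ', ← hψ']
      exact (Commute.all _ _).map ψ
    xp := xp
    yp := yp
    B := Module.Basis.mk (linearIndependent_of_top_le_span_of_card_le_finrank hsp hcard) hsp
    hB := fun a b c => Module.Basis.mk_apply _ _ _ }⟩

end Pool.Agent.P.MP_f9a7a1_al.Fr
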