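import Pool.Agent.P.MP_f9a7a1_al.Defs

set_option autoImplicit false

namespace Pool.Agent.P.MP_f9a7a1_al.Fr

open CategoryTheory Abelian

variable {R : Type} [Ring R]

/-- Vanishing of an Ext group. -/
def V (A B : ModuleCat.{0} R) (n : ℕ) : Prop := ∀ x : Ext A B n, x = 0

variable {S : ShortComplex (ModuleCat.{0} R)} (hS : S.ShortExact) {Y : ModuleCat.{0} R} {n : ℕ}

include hS

theorem c2 (h1 : V S.X₁ Y n) (h3 : V S.X₃ Y n) : V S.X₂ Y n := fun x => by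
  obtain ⟨y, rfl⟩ := Ext.contravariant_sequence_exact₂ hS Y x (h1 _)
  rw [h3 y, Ext.comp_zero]

theorem c3 (h1 : V S.X₁ Y n) (h2 : V S.X₂ Y (n + 1)) : V S.X₃ Y (n + 1) := fun x => by
  obtain ⟨y, rfl⟩ := Ext.contravariant_sequence_exact₃ hS Y x (h2 _) (n₀ := n) (add_comm 1 n)
  rw [h1 y, Ext.comp_zero]

theorem c1 (h2 : ∀ x : Ext S.X₂ Y n, (Ext.mk₀ S.f).comp x (zero_add n) = 0)
    (h3 : V S.X₃ Y (n + 1)) : V S.X₁ Y n := fun x => by
  obtain ⟨y, rfl⟩ := Ext.contravariant_sequence_exact₁ hS Y x (add_comm 1 n) (h3 _)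
  exact h2 y

theorem c2' (h2 : ∀ x : Ext S.X₂ Y n, (Ext.mk₀ S.f).comp x (zero_add n) = 0)
    (h3 : V S.X₃ Y n) : V S.X₂ Y n := fun x => by
  obtain ⟨y, rfl⟩ := Ext.contravariant_sequence_exact₂ hS Y x (h2 _)
  rw [h3 y, Ext.comp_zero]

theorem d2 (h1 : V Y S.X₁ n) (h3 : V Y S.X₃ n) : V Y S.X₂ n := fun x => by
  obtain ⟨y, rfl⟩ := Ext.covariant_sequence_exact₂ Y hS x (h3 _)
  rw [h1 y, Ext.zero_comp]

theorem d1 (h3 : V Y S.X₃ n) (h2 : V Y S.X₂ (n + 1)) : V Y S.X₁ (n + 1) := fun x => by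
  obtain ⟨y, rfl⟩ := Ext.covariant_sequence_exact₁ Y hS x (h2 _) (n₀ := n) rfl
  rw [h3 y, Ext.zero_comp]

omit hS

theorem V.left {A B : ModuleCat.{0} R} (i : A ⟶ B) (r : B ⟶ A) (h : i ≫ r = 𝟙 A)
    (hB : V B Y n) : V A Y n := fun x => by
  rw [← Ext.mk₀_id_comp x, ← h, ← Ext.mk₀_comp_mk₀_assoc, hB ((Ext.mk₀ r).comp x _),
    Ext.comp_zero]

theorem V.right {A B : ModuleCat.{0} R} (i : A ⟶ B) (r : B ⟶ A) (h : i ≫ r = 𝟙 A)
    (hB : V Y B n) : V Y A n := fun x => by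
  rw [← Ext.comp_mk₀_id x, ← h, ← Ext.mk₀_comp_mk₀, ← Ext.comp_assoc_of_third_deg_zero,
    hB (x.comp (Ext.mk₀ i) _), Ext.zero_comp]

theorem V.zero_iff {A B : ModuleCat.{0} R} : V A B 0 ↔ ∀ f : A ⟶ B, f = 0 := by
  constructor
  · intro h f
    exact (Ext.mk₀_bijective _ _).1 ((h _).trans (Ext.mk₀_zero _ _).symm)
  · intro h x
    obtain ⟨f, rfl⟩ := (Ext.mk₀_bijective _ _).2 x
    rw [h f, Ext.mk₀_zero]

theorem short {A B C : Type} [AddCommGroup A] [AddCommGroup B] [AddCommGroup C] [Module R A]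
    [Module R B] [Module R C] (f : A →ₗ[R] B) (g : B →ₗ[R] C) (hf : Function.Injective f)
    (hg : Function.Surjective g) (h : Function.Exact f g) :
    (ModuleCat.shortComplexOfCompEqZero f g h.linearMap_comp_eq_zero).ShortExact :=
  ModuleCat.shortComplex_shortExact _ h hf hg

theorem phi_eq {M : ModuleCat.{0} R} (h1 : 1 ≤ n) (h0 : ∀ r, 1 ≤ r → r < n → V M M r)
    (h : ¬V M M n) : phi M = n := by
  apply le_antisymm
  · have : Nontrivial (Ext M M n) := by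
      by_contra hcon
      rw [not_nontrivial_iff_subsingleton] at hcon
      exact h fun x => Subsingleton.elim _ _
    exact iInf_le_of_le n (iInf_le_of_le h1 (iInf_le_of_le this le_rfl))
  · refine le_iInf fun r => le_iInf fun hr => le_iInf fun hn => ?_
    by_contra hcon
    obtain ⟨x, hx⟩ := exists_ne (0 : Ext M M r)
    exact hx (h0 r hr (by exact_mod_cast not_le.1 hcon) x)

end Pool.Agent.P.MP_f9a7a1_al.Fr
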