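import Pool.Agent.P.MP_f9a7a1_al.FrGrp

set_option autoImplicit false

namespace Pool.Agent.P.MP_f9a7a1_al.Fr

open MulOpposite CategoryTheory

theorem indec_of_idem {A : Type} [Ring A]
    (hA : ∀ e : A, (∀ y, Commute e y) → e * e = e → e = 0 ∨ e = 1)
    (I J : TwoSidedIdeal A) (h : IsCompl I J) : I = ⊥ ∨ J = ⊥ := by
  have h1 : (1 : A) ∈ I ⊔ J := by
    rw [h.sup_eq_top]
    exact TwoSidedIdeal.mem_top _
  obtain ⟨e, he, f, hf, hef⟩ := TwoSidedIdeal.mem_sup.1 h1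
  have h0 : ∀ x, x ∈ I → x ∈ J → x = 0 := by
    intro x hx hx'
    have : x ∈ I ⊓ J := (TwoSidedIdeal.mem_inf _).2 ⟨hx, hx'⟩
    rw [h.inf_eq_bot] at this
    exact (TwoSidedIdeal.mem_bot _).1 this
  have hc : ∀ y, Commute e y := by
    intro y
    have h2 : e * y - y * e = y * f - f * y := by
      rw [eq_sub_of_add_eq hef]
      noncomm_ring
    refine sub_eq_zero.1 (h0 _ (I.sub_mem (I.mul_mem_right _ _ he) (I.mul_mem_left _ _ he)) ?_)
    rw [h2]
    exact J.sub_mem (J.mul_mem_left _ _ hf) (J.mul_mem_right _ _ hf)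
  have hI : ∀ x ∈ I, x * e = x := by
    intro x hx
    have h2 : x * f = 0 := h0 _ (I.mul_mem_right _ _ hx) (J.mul_mem_left _ _ hf)
    rw [eq_sub_of_add_eq hef, mul_sub, h2, mul_one, sub_zero]
  rcases hA e hc (hI e he) with h3 | h3
  · left
    refine eq_bot_iff.2 (fun x hx => (TwoSidedIdeal.mem_bot _).2 ?_)
    rw [← hI x hx, h3, mul_zero]
  · right
    refine eq_bot_iff.2 (fun x hx => (TwoSidedIdeal.mem_bot _).2 (h0 x ?_ hx))
    rw [← mul_one x, ← h3]
    exact I.mul_mem_left _ _ he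

theorem main (p : ℕ) (hp : p.Prime) (h5 : 5 ≤ p) (F : Type) [Field F] [Finite F]
    (hF : Nat.card F = p ^ 2) (k : Type) [Field k] [Algebra F k] (G : Subgroup (Equiv.Perm F))
    (hG : ∀ σ : Equiv.Perm F, σ ∈ G ↔ ∃ a b : F, a ≠ 0 ∧ ∀ x, σ x = a ^ 2 * x + b) :
    (∀ I J : TwoSidedIdeal (MonoidAlgebra k G), IsCompl I J → I = ⊥ ∨ J = ⊥) ∧
    ¬IsSemisimpleRing (MonoidAlgebra k G) ∧
    (∀ S : ModuleCat.{0} (MonoidAlgebra k G)ᵐᵒᵖ, IsSimpleModule (MonoidAlgebra k G)ᵐᵒᵖ S →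
      phi S = (2 * p - 4 : ℕ)) ∧
    ∃ M : ModuleCat.{0} (MonoidAlgebra k G)ᵐᵒᵖ, Module.Finite (MonoidAlgebra k G)ᵐᵒᵖ M ∧
      ¬Module.Projective (MonoidAlgebra k G)ᵐᵒᵖ M ∧ phi M = (2 * p - 2 : ℕ) := by
  have := Fact.mk hp
  let _ := Fintype.ofFinite F
  let _ := Fintype.ofFinite G
  rw [Nat.card_eq_fintype_card] at hF
  obtain ⟨r, hr⟩ := hp.odd_of_ne_two (by omega)
  have r2 : 2 ≤ r := by omega
  have : NeZero (2 * r * (r + 1)) := ⟨by positivity⟩
  let ι : G →* (MonoidAlgebra k G)ᵐᵒᵖ :=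
    { toFun := fun g => op (MonoidAlgebra.single g⁻¹ 1)
      map_one' := by
        rw [inv_one]
        rfl
      map_mul' := fun g h => by
        rw [← op_mul, MonoidAlgebra.single_mul_single, mul_inv_rev, mul_one] }
  let b : Module.Basis G k (MonoidAlgebra k G)ᵐᵒᵖ :=
    ((MonoidAlgebra.basis G k).map (opLinearEquiv k)).reindex (Equiv.inv G)
  have hb : ∀ g, b g = ι g := fun g => by simp [b, ι]
  let tr : Multiplicative F →* G := MonoidHom.mk'
    (fun β => ⟨Equiv.addRight β.toAdd, (hG _).2 ⟨1, β.toAdd, one_ne_zero, fun x => by simp⟩⟩)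
    fun β γ => Subtype.ext (Equiv.ext fun x => by simp [add_comm, add_left_comm])
  let τ : Fˣ →* G := MonoidHom.mk'
    (fun a => ⟨Equiv.mulLeft₀ ((a : F) ^ 2) (pow_ne_zero _ a.ne_zero),
      (hG _).2 ⟨a, 0, a.ne_zero, fun x => by simp⟩⟩)
    fun a c => Subtype.ext (Equiv.ext fun x => by simp [mul_pow, mul_assoc])
  have e1 : ∀ β a x, ((tr β * τ a : G) : Equiv.Perm F) x = (a : F) ^ 2 * x + β.toAdd :=
    fun _ _ _ => rfl
  obtain ⟨D⟩ := exists_dat (m := 2 * r * (r + 1)) hF (by rw [hr]; ring) ι b hb tr τ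
    (fun a β => Subtype.ext (Equiv.ext fun x => by
      rw [e1]
      exact mul_add _ _ _))
    (fun a ha => Subtype.ext (Equiv.ext fun x => by
      change (a : F) ^ 2 * x = x
      rw [← Units.val_pow_eq_pow_val, ha, Units.val_one, one_mul]))
    (fun g => by
      obtain ⟨a, c, ha, h⟩ := (hG g).1 g.2
      exact ⟨.ofAdd c, Units.mk0 a ha, Subtype.ext (Equiv.ext h)⟩)
    (fun β a β' a' h => by
      have h0 := e1 β a 0
      have h1 := e1 β a 1
      rw [h, e1] at h0 h1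
      rw [mul_zero, mul_zero, zero_add, zero_add] at h0
      rw [mul_one, mul_one, h0, add_left_inj] at h1
      exact ⟨Multiplicative.toAdd.injective h0.symm, Units.ext (by simpa using h1.symm)⟩)
  have := Module.Finite.of_basis b
  obtain ⟨M, m1, m2, m3⟩ := D.exists_big r2 hr rfl (self_injective ι b hb)
  refine ⟨indec_of_idem fun e he h => ?_, fun h => m2 (Module.projective_of_isSemisimpleRing _ _),
    fun S hS => ?_, M, m1, m2, m3⟩
  · rcases D.idem hp.one_lt (f := op e) (fun u => (he u.unop).op) (congrArg op h) with h1 | h1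
    · exact Or.inl (op_injective h1)
    · exact Or.inr (op_injective h1)
  · obtain ⟨d, ⟨e⟩⟩ := D.simple_iso hp.pos S hS
    rw [← phi_congr e, D.phi_simple r2 hr rfl]

end Pool.Agent.P.MP_f9a7a1_al.Fr
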