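import Pool.Agent.P.MP_f9a7a1_al.FrLes

set_option autoImplicit false

namespace Pool.Agent.P.MP_f9a7a1_al.Fr

open CategoryTheory Abelian

/-- A truncated polynomial algebra in two variables, smashed with a cyclic grading. -/
structure Dat (k R : Type) [Field k] [Ring R] [Algebra k R] (p m : ℕ) where
  x : R
  y : R
  e : ZMod m → R
  ee : ∀ c d, e c * e d = if c = d then e c else 0
  xe : ∀ c, x * e c = e (c + 1) * x
  ye : ∀ c, y * e c = e (c + p) * y
  comm : Commute x y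
  xp : x ^ p = 0
  yp : y ^ p = 0
  B : Module.Basis (Fin p × Fin p × ZMod m) k R
  hB : ∀ a b c, B (a, b, c) = x ^ (a : ℕ) * y ^ (b : ℕ) * e c

namespace Dat

variable {k R : Type} [Field k] [Ring R] [Algebra k R] {p m : ℕ} (D : Dat k R p m)

/-- Monomials. -/
def mon (a b : ℕ) (c : ZMod m) : R := D.x ^ a * D.y ^ b * D.e c

theorem xpe (s : ℕ) (c : ZMod m) : D.x ^ s * D.e c = D.e (c + s) * D.x ^ s := by
  induction s with
  | zero => simp
  | succ s ih =>
    rw [pow_succ', mul_assoc, ih, ← mul_assoc, D.xe, mul_assoc, Nat.cast_succ, add_assoc]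

theorem ype (s : ℕ) (c : ZMod m) : D.y ^ s * D.e c = D.e (c + p * s) * D.y ^ s := by
  induction s with
  | zero => simp
  | succ s ih =>
    rw [pow_succ', mul_assoc, ih, ← mul_assoc, D.ye, mul_assoc, Nat.cast_succ, add_assoc, mul_add,
      mul_one]

theorem mone (s t : ℕ) (c : ZMod m) :
    D.x ^ s * D.y ^ t * D.e c = D.e (c + p * t + s) * (D.x ^ s * D.y ^ t) := by
  rw [mul_assoc, ype, ← mul_assoc, xpe, mul_assoc]

theorem mon_mul (a b s t : ℕ) (c : ZMod m) :
    D.mon a b (c + p * t + s) * (D.x ^ s * D.y ^ t) = D.mon (a + s) (b + t) c := by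
  rw [mon, mul_assoc, ← mone, mon, pow_add, pow_add, ← mul_assoc]
  congr 1
  exact ((D.comm.pow_pow s b).symm.mul_mul_mul_comm _ _)

theorem repr_mon (a b : ℕ) (c : ZMod m) (a' b' : Fin p) (c' : ZMod m) :
    D.B.repr (D.mon a b c) (a', b', c') = if a = a' ∧ b = b' ∧ c = c' then 1 else 0 := by
  by_cases ha : a < p
  · by_cases hb : b < p
    · have : D.mon a b c = D.B (⟨a, ha⟩, ⟨b, hb⟩, c) := (D.hB ⟨a, ha⟩ ⟨b, hb⟩ c).symm
      rw [this, D.B.repr_self, Finsupp.single_apply]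
      simp [Fin.ext_iff]
    · rw [mon, pow_eq_zero_of_le (not_lt.1 hb) D.yp, if_neg (by omega)]
      simp
  · rw [mon, pow_eq_zero_of_le (not_lt.1 ha) D.xp, if_neg (by omega)]
    simp

theorem ind {P : R → Prop} (h0 : P 0) (ha : ∀ u v, P u → P v → P (u + v))
    (hs : ∀ (r : k) u, P u → P (r • u)) (hm : ∀ a b c, P (D.mon a b c)) (u : R) : P u := by
  have hu : u ∈ Submodule.span k (Set.range D.B) := D.B.span_eq ▸ Submodule.mem_top
  induction hu using Submodule.span_induction with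
  | mem v hv =>
    obtain ⟨⟨a, b, c⟩, rfl⟩ := hv
    rw [D.hB]
    exact hm a b c
  | zero => exact h0
  | add u v _ _ h1 h2 => exact ha u v h1 h2
  | smul r u _ h1 => exact hs r u h1

theorem repr_mul (u : R) (s t : ℕ) (a b a' b' : Fin p) (c : ZMod m) (ha : a + s = a')
    (hb : b + t = b') :
    D.B.repr (u * (D.x ^ s * D.y ^ t)) (a', b', c) = D.B.repr u (a, b, c + p * t + s) := by
  induction u using D.ind with
  | h0 => simp
  | ha u v h1 h2 => simp [add_mul, h1, h2]
  | hs r u h1 => simp [h1]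
  | hm i j d =>
    obtain ⟨d, rfl⟩ : ∃ d', d = d' + p * t + s := ⟨d - s - p * t, by ring⟩
    rw [mon_mul, repr_mon, repr_mon]
    refine if_congr ?_ rfl rfl
    rw [add_left_inj, add_left_inj]
    exact ⟨fun h => ⟨by omega, by omega, h.2.2⟩, fun h => ⟨by omega, by omega, h.2.2⟩⟩

theorem repr_mul_zero (u : R) (s t : ℕ) (a b : Fin p) (c : ZMod m) (h : a < s ∨ b < t) :
    D.B.repr (u * (D.x ^ s * D.y ^ t)) (a, b, c) = 0 := by
  induction u using D.ind with
  | h0 => simp
  | ha u v h1 h2 => simp [add_mul, h1, h2]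
  | hs r u h1 => simp [h1]
  | hm i j d =>
    obtain ⟨d, rfl⟩ : ∃ d', d = d' + p * t + s := ⟨d - s - p * t, by ring⟩
    rw [mon_mul, repr_mon, if_neg (by omega)]

theorem repr_mul_e (u : R) (a b : Fin p) (c d : ZMod m) :
    D.B.repr (u * D.e d) (a, b, c) = if c = d then D.B.repr u (a, b, c) else 0 := by
  induction u using D.ind with
  | h0 => simp
  | ha u v h1 h2 =>
    simp only [add_mul, map_add, Finsupp.add_apply, h1, h2]
    split_ifs <;> simp
  | hs r u h1 =>
    simp only [smul_mul_assoc, map_smul, Finsupp.smul_apply, h1]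
    split_ifs <;> simp
  | hm i j d' =>
    rw [mon, mul_assoc, D.ee]
    by_cases h : d' = d
    · subst h
      rw [if_pos rfl, ← mon, repr_mon]
      by_cases h' : c = d'
      · rw [if_pos h']
      · rw [if_neg h', if_neg (fun h => h' h.2.2.symm)]
    · rw [if_neg h, mul_zero, map_zero, ← mon, repr_mon]
      by_cases h' : c = d
      · rw [if_pos h', if_neg (fun h'' => h (h''.2.2.trans h'))]
        rfl
      · rw [if_neg h']
        rfl

/-- The left ideal generated by two powers. -/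
def I (i j : ℕ) : Submodule R R := Submodule.span R {D.x ^ i, D.y ^ j}

theorem mon_mem {i j a b : ℕ} (c : ZMod m) (h : i ≤ a ∨ j ≤ b) : D.mon a b c ∈ D.I i j := by
  rcases h with h | h
  · obtain ⟨a, rfl⟩ := Nat.exists_eq_add_of_le' h
    have := D.mon_mul a b i 0 c
    rw [pow_zero, mul_one, add_zero b] at this
    rw [← this]
    exact Submodule.smul_mem _ _ (Submodule.subset_span (Or.inl rfl))
  · obtain ⟨b, rfl⟩ := Nat.exists_eq_add_of_le' h
    have := D.mon_mul a b 0 j c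
    rw [pow_zero, one_mul, add_zero a] at this
    rw [← this]
    exact Submodule.smul_mem _ _ (Submodule.subset_span (Or.inr rfl))

variable [NeZero m]

theorem mem_I {i j : ℕ} {u : R} :
    u ∈ D.I i j ↔ ∀ (a b : Fin p) c, a < i → b < j → D.B.repr u (a, b, c) = 0 := by
  constructor
  · intro h a b c ha hb
    obtain ⟨r, r', rfl⟩ := Submodule.mem_span_pair.1 h
    have h1 := D.repr_mul_zero r i 0 a b c (Or.inl ha)
    have h2 := D.repr_mul_zero r' 0 j a b c (Or.inr hb)
    rw [pow_zero, mul_one] at h1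
    rw [pow_zero, one_mul] at h2
    rw [map_add, Finsupp.add_apply, smul_eq_mul, smul_eq_mul, h1, h2, add_zero]
  · intro h
    rw [← D.B.sum_repr u]
    refine Submodule.sum_mem _ fun ⟨a, b, c⟩ _ => ?_
    by_cases h1 : (a : ℕ) < i ∧ (b : ℕ) < j
    · rw [h a b c h1.1 h1.2, zero_smul]
      exact zero_mem _
    · rw [D.hB]
      exact Submodule.smul_of_tower_mem _ _ (D.mon_mem c (by omega))

theorem I_mul_e {i j : ℕ} {u : R} (h : u ∈ D.I i j) (c : ZMod m) : u * D.e c ∈ D.I i j :=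
  D.mem_I.2 fun a b d ha hb => by rw [repr_mul_e, D.mem_I.1 h a b d ha hb, ite_self]

theorem I_mono {i j i' j' : ℕ} (hi : i' ≤ i) (hj : j' ≤ j) : D.I i j ≤ D.I i' j' :=
  fun _ h => D.mem_I.2 fun a b c ha hb => D.mem_I.1 h a b c (by omega) (by omega)

theorem colon {r s r' t i j : ℕ} (h : r + s = i) (hi : i ≤ p) (h' : r' + t = j) (hj : j ≤ p)
    (u : R) : u * (D.x ^ s * D.y ^ t) ∈ D.I i j ↔ u ∈ D.I r r' := by
  rw [mem_I, mem_I]
  constructor
  · intro H a b c ha hb
    obtain ⟨c, rfl⟩ : ∃ d', c = d' + p * t + s := ⟨c - s - p * t, by ring⟩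
    rw [← D.repr_mul u s t a b ⟨a + s, by omega⟩ ⟨b + t, by omega⟩ c rfl rfl]
    exact H _ _ _ (by simp only; omega) (by simp only; omega)
  · intro H a b c ha hb
    by_cases h1 : (a : ℕ) < s ∨ (b : ℕ) < t
    · exact D.repr_mul_zero u s t a b c h1
    · rw [D.repr_mul u s t ⟨a - s, by omega⟩ ⟨b - t, by omega⟩ a b c (by simp only; omega)
        (by simp only; omega)]
      exact H _ _ _ (by simp only; omega) (by simp only; omega)

omit [NeZero m] in
theorem I_bot : D.I p p = ⊥ := by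
  rw [I, D.xp, D.yp]
  simp

/-- The annihilator of the generator of a cyclic module. -/
def L (i j : ℕ) (c : ZMod m) : Submodule R R :=
  (D.I i j).comap (LinearMap.toSpanSingleton R R (D.e c))

omit [NeZero m] in
theorem mem_L {i j : ℕ} {c : ZMod m} {u : R} : u ∈ D.L i j c ↔ u * D.e c ∈ D.I i j := Iff.rfl

/-- The cyclic modules. -/
abbrev M (i j : ℕ) (c : ZMod m) : Type := R ⧸ D.L i j c

/-- The cyclic modules as objects. -/
abbrev Mo (i j : ℕ) (c : ZMod m) : ModuleCat.{0} R := ModuleCat.of R (D.M i j c)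

omit [NeZero m] in
theorem mk_e (i j : ℕ) (c : ZMod m) (u : R) :
    (Submodule.Quotient.mk (u * D.e c) : D.M i j c) = Submodule.Quotient.mk u := by
  rw [Submodule.Quotient.eq, mem_L, sub_mul, mul_assoc, D.ee, if_pos rfl, sub_self]
  exact zero_mem _

/-- Right multiplication by a monomial. -/
def mp {r s r' t i j : ℕ} (h : r + s = i) (hi : i ≤ p) (h' : r' + t = j) (hj : j ≤ p)
    {c1 c : ZMod m} (hc : c1 = c + p * t + s) : D.M r r' c1 →ₗ[R] D.M i j c :=
  Submodule.mapQ _ _ (LinearMap.toSpanSingleton R R (D.x ^ s * D.y ^ t)) fun u hu => by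
    change u * (D.x ^ s * D.y ^ t) * D.e c ∈ D.I i j
    rw [mul_assoc, mone, ← mul_assoc, ← hc]
    exact (D.colon h hi h' hj _).2 hu

theorem mp_inj {r s r' t i j : ℕ} (h : r + s = i) (hi : i ≤ p) (h' : r' + t = j) (hj : j ≤ p)
    {c1 c : ZMod m} (hc : c1 = c + p * t + s) : Function.Injective (D.mp h hi h' hj hc) := by
  rw [injective_iff_map_eq_zero]
  intro q hq
  obtain ⟨u, rfl⟩ := Submodule.Quotient.mk_surjective _ q
  have h1 : u * (D.x ^ s * D.y ^ t) * D.e c ∈ D.I i j :=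
    (Submodule.Quotient.mk_eq_zero (D.L i j c)).1 hq
  rw [mul_assoc, mone, ← mul_assoc, ← hc] at h1
  exact (Submodule.Quotient.mk_eq_zero _).2 ((D.colon h hi h' hj _).1 h1)

/-- The natural projection. -/
def pr {i j i' j' : ℕ} (hi : i' ≤ i) (hj : j' ≤ j) (c : ZMod m) : D.M i j c →ₗ[R] D.M i' j' c :=
  Submodule.mapQ _ _ LinearMap.id fun _ hu => D.I_mono hi hj hu

theorem pr_surj {i j i' j' : ℕ} (hi : i' ≤ i) (hj : j' ≤ j) (c : ZMod m) :
    Function.Surjective (D.pr hi hj c) := fun q => by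
  obtain ⟨u, rfl⟩ := Submodule.Quotient.mk_surjective _ q
  exact ⟨Submodule.Quotient.mk u, rfl⟩

theorem exact_aux {r s r' t i j i' j' : ℕ} (h : r + s = i) (hi : i ≤ p) (h' : r' + t = j)
    (hj : j ≤ p) {c1 c : ZMod m} (hc : c1 = c + p * t + s) (k1 : i' ≤ i) (k2 : j' ≤ j)
    (h1 : D.x ^ s * D.y ^ t ∈ D.I i' j')
    (h2 : ∀ u ∈ D.I i' j', ∃ v, u - v * (D.x ^ s * D.y ^ t) ∈ D.I i j) :
    Function.Exact (D.mp h hi h' hj hc) (D.pr k1 k2 c) := by
  intro q
  obtain ⟨u, rfl⟩ := Submodule.Quotient.mk_surjective _ q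
  constructor
  · intro hq
    obtain ⟨v, hv⟩ := h2 (u * D.e c) ((Submodule.Quotient.mk_eq_zero (D.L i' j' c)).1 hq)
    refine ⟨Submodule.Quotient.mk v, ?_⟩
    rw [← D.mk_e i j c u]
    exact ((Submodule.Quotient.eq (D.L i j c)).2 (D.I_mul_e hv c)).symm
  · rintro ⟨q, hq⟩
    obtain ⟨v, rfl⟩ := Submodule.Quotient.mk_surjective _ q
    rw [← hq]
    exact (Submodule.Quotient.mk_eq_zero (D.L i' j' c)).2
      (D.I_mul_e (Submodule.smul_mem _ v h1) c)

theorem exactX {r s i j : ℕ} (h : r + s = i) (hi : i ≤ p) (hj : j ≤ p) {c1 c : ZMod m}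
    (hc : c1 = c + p * (0 : ℕ) + s) :
    Function.Exact (D.mp h hi (add_zero j) hj hc) (D.pr (h ▸ Nat.le_add_left s r) le_rfl c) := by
  refine D.exact_aux _ _ _ _ _ _ _ ?_ fun u hu => ?_
  · rw [pow_zero, mul_one]
    exact Submodule.subset_span (Or.inl rfl)
  · obtain ⟨a, b, rfl⟩ := Submodule.mem_span_pair.1 hu
    refine ⟨a, ?_⟩
    rw [pow_zero, mul_one, smul_eq_mul, add_sub_cancel_left]
    exact Submodule.smul_mem _ _ (Submodule.subset_span (Or.inr rfl))

theorem exactY {r s i j : ℕ} (h : r + s = j) (hi : i ≤ p) (hj : j ≤ p) {c1 c : ZMod m}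
    (hc : c1 = c + p * s + (0 : ℕ)) :
    Function.Exact (D.mp (add_zero i) hi h hj hc) (D.pr le_rfl (h ▸ Nat.le_add_left s r) c) := by
  refine D.exact_aux _ _ _ _ _ _ _ ?_ fun u hu => ?_
  · rw [pow_zero, one_mul]
    exact Submodule.subset_span (Or.inr rfl)
  · obtain ⟨a, b, rfl⟩ := Submodule.mem_span_pair.1 hu
    refine ⟨b, ?_⟩
    rw [pow_zero, one_mul, smul_eq_mul b, add_sub_cancel_right]
    exact Submodule.smul_mem _ _ (Submodule.subset_span (Or.inl rfl))

end Dat

end Pool.Agent.P.MP_f9a7a1_al.Fr
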