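import Pool.Agent.P.MP_f9a7a1_al.FrBig

set_option autoImplicit false

namespace Pool.Agent.P.MP_f9a7a1_al.Fr

open CategoryTheory Abelian

theorem phi_congr {R : Type} [Ring R] {A B : ModuleCat.{0} R} (e : A ≅ B) : phi A = phi B := by
  have h : ∀ (C : ModuleCat.{0} R) (n : ℕ), Nontrivial (Ext C C n) ↔ ¬V C C n := fun C n =>
    ⟨fun _ h => by
      obtain ⟨x, hx⟩ := exists_ne (0 : Ext C C n)
      exact hx (h x), fun h => by
      by_contra hcon
      rw [not_nontrivial_iff_subsingleton] at hcon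
      exact h fun x => Subsingleton.elim _ _⟩
  have h2 : ∀ n, V A A n ↔ V B B n := fun n =>
    ⟨fun h => V.left e.inv e.hom e.inv_hom_id (V.right e.inv e.hom e.inv_hom_id h),
      fun h => V.left e.hom e.inv e.hom_inv_id (V.right e.hom e.inv e.hom_inv_id h)⟩
  simp only [phi, h, h2]

theorem exists_socle {R S : Type} [Ring R] [AddCommGroup S] [Module R S] {z : R} {n : ℕ}
    (hz : z ^ n = 0) {v : S} (hv : v ≠ 0) : ∃ j : ℕ, z ^ j • v ≠ 0 ∧ z • z ^ j • v = 0 := by
  by_contra hcon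
  have h : ∀ j : ℕ, z ^ j • v ≠ 0 := by
    intro j
    induction j with
    | zero => rwa [pow_zero, one_smul]
    | succ j ih =>
      rw [pow_succ', mul_smul]
      exact fun h => hcon ⟨j, ih, h⟩
  exact h n (by rw [hz, zero_smul])

theorem self_injective {k G R : Type} [Field k] [Group G] [Fintype G] [Ring R] [Algebra k R]
    (ι : G →* R) (b : Module.Basis G k R) (hb : ∀ g, b g = ι g) : Module.Injective R R := by
  classical
  refine Module.Baer.injective fun J g => ?_
  obtain ⟨μ, hμ⟩ := LinearMap.exists_extend (p := J.restrictScalars k)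
    (b.coord 1 ∘ₗ g.restrictScalars k)
  have hμ' : ∀ x (hx : x ∈ J), μ x = b.repr (g ⟨x, hx⟩) 1 := fun x hx =>
    LinearMap.congr_fun hμ ⟨x, hx⟩
  have hc : ∀ h u, b.repr (ι h⁻¹ * u) 1 = b.repr u h := by
    intro h u
    conv_lhs => rw [← b.sum_repr u]
    simp only [Finset.mul_sum, mul_smul_comm, hb, ← map_mul]
    simp only [← hb, map_sum, map_smul, b.repr_self, Finsupp.coe_finsetSum, Finset.sum_apply,
      Finsupp.smul_apply, Finsupp.single_apply, inv_mul_eq_one, smul_eq_mul, mul_ite, mul_one,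
      mul_zero, Finset.sum_ite_eq, Finset.mem_univ, if_true]
  refine ⟨LinearMap.toSpanSingleton R R (∑ h, μ (ι h⁻¹) • ι h), fun x hx => ?_⟩
  have h1 : ∀ r : R, r * ∑ h, μ (ι h⁻¹) • ι h = ∑ h, μ (ι h⁻¹ * r) • ι h := by
    intro r
    rw [← b.sum_repr r]
    simp only [Finset.sum_mul, Finset.mul_sum, map_sum, Finset.sum_smul, smul_mul_assoc,
      mul_smul_comm, map_smul, hb, ← map_mul, smul_assoc, Finset.smul_sum]
    rw [Finset.sum_comm, Finset.sum_comm (f := fun h a => b.repr r a • μ (ι (h⁻¹ * a)) • ι h)]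
    refine Finset.sum_congr rfl fun a _ => Fintype.sum_equiv (Equiv.mulLeft a) _ _ fun h => ?_
    rw [smul_comm]
    simp
  change x * _ = _
  rw [h1, ← b.sum_repr (g ⟨x, hx⟩)]
  refine Finset.sum_congr rfl fun h _ => ?_
  rw [hμ' _ (J.mul_mem_left _ hx), ← hc h, hb, ← smul_eq_mul (ι h⁻¹) (g _), ← map_smul g]
  rfl

namespace Dat

variable {k R : Type} [Field k] [Ring R] [Algebra k R] {p m : ℕ} (D : Dat k R p m) [NeZero m]

theorem sum_e : ∑ c, D.e c = 1 := by
  have h : ∀ u : R, u * ∑ c, D.e c = u := by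
    intro u
    induction u using D.ind with
    | h0 => simp
    | ha u v h1 h2 => rw [add_mul, h1, h2]
    | hs r u h1 => rw [smul_mul_assoc, h1]
    | hm a b c =>
      rw [mon, mul_assoc, Finset.mul_sum]
      simp [D.ee]
  rw [← h 1, one_mul]

omit [NeZero m] in
theorem repr_e (a b : Fin p) (ha : (a : ℕ) < 1) (hb : (b : ℕ) < 1) (c d : ZMod m) :
    D.B.repr (D.e d) (a, b, c) = if c = d then 1 else 0 := by
  have h := D.repr_mon 0 0 d a b c
  rw [mon, pow_zero, pow_zero, one_mul, one_mul] at h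
  rw [h]
  exact if_congr ⟨fun h => h.2.2.symm, fun h => ⟨by omega, by omega, h.symm⟩⟩ rfl rfl

theorem simple_iso (hp : 0 < p) (S : ModuleCat.{0} R) (hS : IsSimpleModule R S) :
    ∃ d, Nonempty (D.Mo 1 1 d ≅ S) := by
  have : Nontrivial S := IsSimpleModule.nontrivial R S
  obtain ⟨v0, h0⟩ := exists_ne (0 : S)
  obtain ⟨i, h1, h1'⟩ := exists_socle D.xp h0
  obtain ⟨j, h2, h2'⟩ := exists_socle D.yp h1
  have h3 : D.x • D.y ^ j • D.x ^ i • v0 = 0 := by
    rw [smul_smul, (D.comm.pow_right j).eq, mul_smul, h1', smul_zero]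
  generalize D.y ^ j • D.x ^ i • v0 = w at h2 h2' h3
  obtain ⟨d, hd⟩ : ∃ d, D.e d • w ≠ 0 := by
    by_contra hcon
    refine h2 ?_
    rw [← one_smul R w, ← D.sum_e, Finset.sum_smul]
    exact Finset.sum_eq_zero fun d _ => by_contra fun h => hcon ⟨d, h⟩
  have hx : D.x • D.e d • w = 0 := by rw [smul_smul, D.xe, mul_smul, h3, smul_zero]
  have hy : D.y • D.e d • w = 0 := by rw [smul_smul, D.ye, mul_smul, h2', smul_zero]
  have he : D.e d • D.e d • w = D.e d • w := by rw [smul_smul, D.ee, if_pos rfl]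
  generalize D.e d • w = v at hd hx hy he
  have hI : ∀ u ∈ D.I 1 1, u • v = 0 := by
    intro u hu
    obtain ⟨a, b, rfl⟩ := Submodule.mem_span_pair.1 hu
    rw [pow_one, pow_one, add_smul, smul_assoc, smul_assoc, hx, hy, smul_zero, smul_zero,
      add_zero]
  have hker : D.L 1 1 d = LinearMap.ker (LinearMap.toSpanSingleton R S v) := by
    ext u
    rw [mem_L, LinearMap.mem_ker, LinearMap.toSpanSingleton_apply]
    constructor
    · intro h
      rw [← he, smul_smul, hI _ h]
    · intro h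
      have h4 : u * D.e d - D.B.repr u (⟨0, hp⟩, ⟨0, hp⟩, d) • D.e d ∈ D.I 1 1 := by
        refine D.mem_I.2 fun a b c ha hb => ?_
        obtain rfl : a = ⟨0, hp⟩ := Fin.ext (by simp only; omega)
        obtain rfl : b = ⟨0, hp⟩ := Fin.ext (by simp only; omega)
        rw [map_sub, map_smul, Finsupp.sub_apply, Finsupp.smul_apply, repr_mul_e,
          D.repr_e _ _ ha hb]
        split_ifs with h5
        · rw [h5, smul_eq_mul, mul_one, sub_self]
        · rw [smul_zero, sub_self]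
      generalize D.B.repr u (⟨0, hp⟩, ⟨0, hp⟩, d) = ρ at h4
      by_cases h5 : ρ = 0
      · rwa [h5, zero_smul, sub_zero] at h4
      · have h6 := hI _ h4
        rw [sub_smul, mul_smul, he, h, zero_sub, neg_eq_zero, Algebra.smul_def, mul_smul,
          he] at h6
        refine absurd ?_ hd
        rw [← one_smul R v, ← map_one (algebraMap k R), ← inv_mul_cancel₀ h5, map_mul, mul_smul,
          h6, smul_zero]
  exact ⟨d, ⟨((Submodule.quotEquivOfEq _ _ hker).trans (LinearMap.quotKerEquivOfSurjective _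
    (IsSimpleModule.toSpanSingleton_surjective R hd))).toModuleIso⟩⟩

omit [NeZero m] in
theorem central_nil {g : R} (hg : ∀ u, Commute g u) (h : g ∈ D.I 1 1) : IsNilpotent g := by
  obtain ⟨α, β, hg'⟩ := Submodule.mem_span_pair.1 h
  have key : ∀ n : ℕ, g ^ n ∈
      Submodule.span R {z | ∃ i j, i + j = n ∧ z = D.x ^ i * D.y ^ j} := by
    intro n
    induction n with
    | zero => exact Submodule.subset_span ⟨0, 0, rfl, by simp⟩
    | succ n ih =>
      rw [pow_succ']
      generalize g ^ n = z at ih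
      induction ih using Submodule.span_induction with
      | mem z hz =>
        obtain ⟨i, j, hij, rfl⟩ := hz
        rw [← hg', pow_one, pow_one, add_mul, smul_eq_mul, smul_eq_mul, mul_assoc, mul_assoc]
        refine add_mem (Submodule.smul_mem _ _ (Submodule.subset_span ⟨i + 1, j, by omega, ?_⟩))
          (Submodule.smul_mem _ _ (Submodule.subset_span ⟨i, j + 1, by omega, ?_⟩))
        · rw [pow_succ', mul_assoc]
        · rw [← mul_assoc, ← (D.comm.pow_left i).eq, mul_assoc, pow_succ']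
      | zero =>
        rw [mul_zero]
        exact zero_mem _
      | add u v _ _ h1 h2 =>
        rw [mul_add]
        exact add_mem h1 h2
      | smul r u _ h1 =>
        rw [smul_eq_mul, ← mul_assoc, (hg r).eq, mul_assoc]
        exact Submodule.smul_mem _ _ h1
  refine ⟨2 * p, (Submodule.mem_bot R).1 (Submodule.span_le.2 ?_ (key _))⟩
  rintro _ ⟨i, j, hij, rfl⟩
  refine (Submodule.mem_bot R).2 ?_
  rcases le_total p i with h | h
  · rw [pow_eq_zero_of_le h D.xp, zero_mul]
  · rw [pow_eq_zero_of_le (by omega : p ≤ j) D.yp, mul_zero]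

include D in
theorem idem (hp : 1 < p) {f : R} (hf : ∀ u, Commute f u) (h : f * f = f) : f = 0 ∨ f = 1 := by
  have p0 : 0 < p := by omega
  have h1 : ∀ (u : R) c, D.B.repr (D.x * u) (⟨1, hp⟩, ⟨0, p0⟩, c) =
      D.B.repr u (⟨0, p0⟩, ⟨0, p0⟩, c) := by
    intro u c
    induction u using D.ind with
    | h0 => simp
    | ha u v h1 h2 => simp [mul_add, h1, h2]
    | hs r u h1 => simp [h1]
    | hm a b d =>
      rw [mon, ← mul_assoc, ← mul_assoc, ← pow_succ', ← mon, ← mon, repr_mon, repr_mon]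
      simp
  have h2 : ∀ c, D.B.repr f (⟨0, p0⟩, ⟨0, p0⟩, c + 1) = D.B.repr f (⟨0, p0⟩, ⟨0, p0⟩, c) := by
    intro c
    have h3 := D.repr_mul f 1 0 ⟨0, p0⟩ ⟨0, p0⟩ ⟨1, hp⟩ ⟨0, p0⟩ c rfl rfl
    rw [pow_one, pow_zero, mul_one, (hf _).eq, h1] at h3
    simpa using h3.symm
  have h3 : ∀ c, D.B.repr f (⟨0, p0⟩, ⟨0, p0⟩, c) = D.B.repr f (⟨0, p0⟩, ⟨0, p0⟩, 0) := by
    intro c
    obtain ⟨n, rfl⟩ := ZMod.natCast_zmod_surjective c
    induction n with
    | zero => rw [Nat.cast_zero]
    | succ n ih => rw [Nat.cast_succ, h2, ih]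
  have h4 : f - D.B.repr f (⟨0, p0⟩, ⟨0, p0⟩, 0) • (1 : R) ∈ D.I 1 1 := by
    refine D.mem_I.2 fun a b c ha hb => ?_
    rw [map_sub, map_smul, Finsupp.sub_apply, Finsupp.smul_apply, ← D.sum_e, map_sum,
      Finsupp.finsetSum_apply]
    simp only [D.repr_e a b ha hb, Finset.sum_ite_eq, Finset.mem_univ, if_true]
    obtain rfl : a = ⟨0, p0⟩ := Fin.ext (by simp only; omega)
    obtain rfl : b = ⟨0, p0⟩ := Fin.ext (by simp only; omega)
    rw [h3 c, smul_eq_mul, mul_one, sub_self]
  generalize D.B.repr f (⟨0, p0⟩, ⟨0, p0⟩, 0) = ρ at h4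
  have h5 := D.central_nil (fun u => (hf u).sub_left ((Commute.one_left u).smul_left ρ)) h4
  by_cases h6 : ρ = 0
  · rw [h6, zero_smul, sub_zero] at h5
    exact Or.inl (IsIdempotentElem.eq_zero_of_isNilpotent h h5)
  · right
    have h7 : IsUnit (ρ • (1 : R)) := by
      rw [← Algebra.algebraMap_eq_smul_one]
      exact (IsUnit.mk0 ρ h6).map _
    have h8 := h5.isUnit_add_right_of_commute h7 ((Commute.one_right _).smul_right ρ)
    rw [sub_add_cancel] at h8
    exact h8.mul_left_cancel (h.trans (mul_one f).symm)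

end Dat

end Pool.Agent.P.MP_f9a7a1_al.Fr
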