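import Pool.Agent.P.MP_f9a7a1_al.Abstract

set_option autoImplicit false
set_option linter.unusedSectionVars false
set_option synthInstance.maxSize 2000

namespace Pool.Agent.P.MP_f9a7a1_al

open CategoryTheory.Abelian MonoidAlgebra MulOpposite

abbrev P3 : Type := Equiv.Perm (Fin 3)

abbrev GG : Type := P3 × Multiplicative (ZMod 3)

variable (k : Type) [Field k] [CharP k 3]

abbrev AA : Type := MonoidAlgebra k GG

theorem three_eq_zero : (3 : AA k) = 0 := by
  have h : (3 : k) = 0 := CharP.cast_eq_zero k 3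
  rw [← map_ofNat (algebraMap k (AA k)) 3, h, map_zero]

instance : CharP (AA k) 3 := charP_of_injective_algebraMap (algebraMap k (AA k)).injective 3

/-- The additive character of the group. -/
noncomputable def chi (g : GG) : k := ZMod.castHom (dvd_refl 3) k g.2.toAdd

theorem chi_mul (g h : GG) : chi k (g * h) = chi k g + chi k h := by
  simp [chi]

/-- The derivation of the group algebra given by `chi`. -/
noncomputable def DD : AA k →+ AA k where
  toFun v := ∑ g, single g (chi k g * v.coeff g)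
  map_zero' := by simp
  map_add' x y := by simp [mul_add, single_add, Finset.sum_add_distrib]

theorem DD_single (g : GG) (c : k) : DD k (single g c) = single g (chi k g * c) := by
  change ∑ h, single h (chi k h * (single g c).coeff h) = _
  rw [Finset.sum_eq_single g]
  · simp
  · intro h _ hne
    simp [Finsupp.single_eq_of_ne hne]
  · simp

theorem DD_mul (x y : AA k) : DD k (x * y) = DD k x * y + x * DD k y := by
  induction x using MonoidAlgebra.induction_linear with
  | zero => simp
  | add x x' hx hx' =>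
    simp only [add_mul, map_add, hx, hx']
    abel
  | single g a =>
    induction y using MonoidAlgebra.induction_linear with
    | zero => simp
    | add y y' hy hy' =>
      simp only [mul_add, map_add, hy, hy']
      abel
    | single h b =>
      simp only [single_mul_single, DD_single, chi_mul, ← single_add]
      congr 1
      ring

/-- The derivation on the opposite ring. -/
noncomputable def dOp : Der (AA k)ᵐᵒᵖ where
  D := { toFun := fun x => op (DD k (unop x))
         map_zero' := by simp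
         map_add' := fun x y => by simp }
  leibniz x y := by
    change op (DD k (unop (x * y))) = op (DD k (unop x)) * y + x * op (DD k (unop y))
    apply unop_injective
    simp only [unop_op, unop_mul, unop_add, DD_mul]
    abel

theorem central_single (h : Multiplicative (ZMod 3)) (x : AA k) :
    Commute (single ((1, h) : GG) (1 : k)) x :=
  single_commute (fun m => Prod.ext (by simp) (mul_comm _ _)) (fun r => Commute.one_left r) x

theorem single_cube {g : GG} (hg : g ^ 3 = 1) : (single g (1 : k)) ^ 3 = 1 := by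
  rw [single_pow, hg, one_pow, one_def]

theorem simple_ext (S : ModuleCat.{0} (AA k)ᵐᵒᵖ) (hS : IsSimpleModule (AA k)ᵐᵒᵖ S) :
    Nontrivial (Ext S S 1) := by
  refine ext_simple (dOp k) (z := op (single ((1, Multiplicative.ofAdd 1) : GG) (1 : k)))
    (fun x => ?_) ?_ ?_ S hS
  · apply unop_injective
    simp only [unop_mul, unop_op]
    exact (central_single k _ _).eq.symm
  · apply unop_injective
    simp only [unop_pow, unop_sub, unop_op, unop_one, unop_zero]
    rw [sub_pow_char_of_commute 3 (Commute.one_right _), single_cube k (by decide), one_pow,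
      sub_self]
  · change op (DD k _) = _
    rw [unop_op, DD_single]
    simp [chi]

/-- The generators of the ideal. -/
noncomputable def gen (τ : P3) : (AA k)ᵐᵒᵖ := op (single ((τ, 1) : GG) (1 : k)) - 1

/-- The ideal. -/
noncomputable def KK : Submodule (AA k)ᵐᵒᵖ (AA k)ᵐᵒᵖ :=
  Submodule.span _ {x | ∃ τ : P3, τ * τ = 1 ∧ x = gen k τ}

theorem gen_mem {τ : P3} (h : τ * τ = 1) : gen k τ ∈ KK k :=
  Submodule.subset_span ⟨τ, h, rfl⟩

theorem gen_mul_mem {τ : P3} (h : τ * τ = 1) (x : (AA k)ᵐᵒᵖ) : gen k τ * x ∈ KK k := by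
  obtain ⟨y, rfl⟩ := op_surjective x
  induction y using MonoidAlgebra.induction_linear with
  | zero => simp
  | add y y' hy hy' =>
    rw [op_add, mul_add]
    exact add_mem hy hy'
  | single g a =>
    have h1 : gen k τ * op (single g a) = op (single g a) * gen k (g.1 * τ * g.1⁻¹) := by
      apply unop_injective
      simp only [gen, unop_mul, unop_sub, unop_op, mul_sub, sub_mul, single_mul_single,
        mul_one, one_mul]
      congr 2
      ext <;> simp
    rw [h1]
    refine Submodule.smul_mem _ _ (gen_mem k ?_)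
    calc g.1 * τ * g.1⁻¹ * (g.1 * τ * g.1⁻¹) = g.1 * (τ * τ) * g.1⁻¹ := by group
      _ = 1 := by rw [h]; group

theorem gen_idem {τ : P3} (h : τ * τ = 1) : gen k τ * gen k τ = gen k τ := by
  apply unop_injective
  have h1 : single ((τ, 1) : GG) (1 : k) * single ((τ, 1) : GG) (1 : k) = 1 := by
    rw [single_mul_single, one_def]
    simp [h, Prod.one_eq_mk]
  simp only [gen, unop_mul, unop_sub, unop_op, unop_one]
  have h3 := three_eq_zero k
  generalize single ((τ, 1) : GG) (1 : k) = t at h1
  calc (t - 1) * (t - 1) = t * t - 1 + (t - 1) - 3 * (t - 1) := by noncomm_ring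
    _ = t - 1 := by rw [h1, h3]; simp

theorem hom_zero (f : KK k →ₗ[(AA k)ᵐᵒᵖ] (AA k)ᵐᵒᵖ ⧸ KK k) : f = 0 := by
  have h1 : ∀ τ : P3, ∀ h : τ * τ = 1, f ⟨gen k τ, gen_mem k h⟩ = 0 := by
    intro τ h
    have h2 : (⟨gen k τ, gen_mem k h⟩ : KK k) = gen k τ • ⟨gen k τ, gen_mem k h⟩ :=
      Subtype.ext (gen_idem k h).symm
    rw [h2, map_smul]
    obtain ⟨y, hy⟩ := (KK k).mkQ_surjective (f ⟨gen k τ, gen_mem k h⟩)
    rw [← hy, ← map_smul, Submodule.mkQ_apply, Submodule.Quotient.mk_eq_zero]
    exact gen_mul_mem k h y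
  ext ⟨x, hx⟩
  change f ⟨x, hx⟩ = 0
  induction hx using Submodule.span_induction with
  | mem x hx =>
    obtain ⟨τ, h, rfl⟩ := hx
    exact h1 τ h
  | zero => exact map_zero f
  | add x y hx hy h2 h3 =>
    have : f (⟨x, hx⟩ + ⟨y, hy⟩) = 0 := by rw [map_add, h2, h3, add_zero]
    exact this
  | smul a x hx h2 =>
    have : f (a • ⟨x, hx⟩) = 0 := by rw [map_smul, h2, smul_zero]
    exact this

/-- The augmentation. -/
noncomputable def aug : AA k →ₐ[k] k := MonoidAlgebra.lift k k GG 1

theorem aug_KK {x : (AA k)ᵐᵒᵖ} (hx : x ∈ KK k) : aug k (unop x) = 0 := by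
  induction hx using Submodule.span_induction with
  | mem x hx =>
    obtain ⟨τ, h, rfl⟩ := hx
    simp [gen, aug]
  | zero => simp
  | add x y _ _ h2 h3 => rw [unop_add, map_add, h2, h3, add_zero]
  | smul a x _ h2 => rw [smul_eq_mul, unop_mul, map_mul, h2, zero_mul]

theorem aug_eq (v : AA k) : aug k v = ∑ g, v.coeff g := by
  rw [aug, MonoidAlgebra.lift_apply, Finsupp.sum_fintype _ _ (by simp)]
  simp

theorem not_projective : ¬Module.Projective (AA k)ᵐᵒᵖ ((AA k)ᵐᵒᵖ ⧸ KK k) := by
  intro h
  obtain ⟨u, hu1, hu⟩ := exists_of_projective _ h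
  have h1 := aug_KK k hu1
  rw [unop_sub, unop_one, map_sub, map_one, aug_eq] at h1
  have h2 : ∀ τ : P3, τ * τ = 1 → ∀ g : GG, (unop u).coeff (g * (τ, 1)) = (unop u).coeff g := by
    intro τ hτ g
    have h3 := congrArg unop (hu _ (gen_mem k hτ))
    simp only [gen, unop_mul, unop_sub, unop_op, unop_one, mul_sub, mul_one, unop_zero,
      sub_eq_zero] at h3
    conv_lhs => rw [← h3]
    rw [coeff_mul_single_apply, mul_inv_cancel_right, mul_one]
  have h4 : ∀ σ : P3, ∃ τ τ' : P3, τ * τ = 1 ∧ τ' * τ' = 1 ∧ σ = τ * τ' := by decide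
  have h5 : ∀ (σ : P3) (h : Multiplicative (ZMod 3)),
      (unop u).coeff (σ, h) = (unop u).coeff (1, h) := by
    intro σ h
    obtain ⟨τ, τ', e1, e2, rfl⟩ := h4 σ
    rw [← h2 τ e1 (1, h), ← h2 τ' e2 ((1, h) * (τ, 1))]
    simp
  rw [Fintype.sum_prod_type_right] at h1
  simp only [h5, Finset.sum_const, Finset.card_univ, Fintype.card_perm, Fintype.card_fin,
    nsmul_eq_mul] at h1
  have h6 : ((Nat.factorial 3 : ℕ) : k) = 0 := (CharP.cast_eq_zero_iff k 3 _).2 (by decide)
  simp [h6] at h1

/-- Central elements whose cube is a scalar. -/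
def Good (x : AA k) : Prop := (∀ y, Commute x y) ∧ ∃ a : k, x ^ 3 = algebraMap k (AA k) a

variable {k}

theorem Good.add {x y : AA k} (hx : Good k x) (hy : Good k y) : Good k (x + y) := by
  obtain ⟨a, ha⟩ := hx.2
  obtain ⟨b, hb⟩ := hy.2
  exact ⟨fun w => (hx.1 w).add_left (hy.1 w), a + b, by
    rw [add_pow_char_of_commute 3 (hx.1 y), ha, hb, map_add]⟩

theorem Good.mul {x y : AA k} (hx : Good k x) (hy : Good k y) : Good k (x * y) := by
  obtain ⟨a, ha⟩ := hx.2
  obtain ⟨b, hb⟩ := hy.2
  exact ⟨fun w => (hx.1 w).mul_left (hy.1 w), a * b, by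
    rw [(hx.1 y).mul_pow, ha, hb, map_mul]⟩

theorem good_single (h : Multiplicative (ZMod 3)) (a : k) :
    Good k (single ((1, h) : GG) a) := by
  refine ⟨single_commute (fun m => Prod.ext (by simp) (mul_comm _ _))
    (fun r => Commute.all _ r), a ^ 3, ?_⟩
  have : ((1, h) : GG) ^ 3 = 1 := by
    revert h
    decide
  rw [single_pow, this]
  rfl

theorem commute_of_conj {x : AA k} (h : ∀ g g' : GG, x.coeff (g * g') = x.coeff (g' * g))
    (y : AA k) : Commute x y := by
  induction y using MonoidAlgebra.induction_linear with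
  | zero => exact Commute.zero_right x
  | add y y' hy hy' => exact hy.add_right hy'
  | single g a =>
    refine coeff_injective (Finsupp.ext (fun m => ?_))
    rw [coeff_mul_single_apply, coeff_single_mul_apply, h, mul_comm]

/-- Names of the elements of the symmetric group. -/
def t0 : P3 := Equiv.swap 0 1

/-- Names of the elements of the symmetric group. -/
def t1 : P3 := Equiv.swap 1 2

/-- Names of the elements of the symmetric group. -/
def t2 : P3 := Equiv.swap 0 2

/-- Names of the elements of the symmetric group. -/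
def c1 : P3 := t0 * t1

/-- Names of the elements of the symmetric group. -/
def c2 : P3 := t1 * t0

theorem good_C : Good k (single ((c1, 1) : GG) 1 + single ((c2, 1) : GG) 1) := by
  refine ⟨commute_of_conj (fun g g' => ?_), 2, ?_⟩
  · have : (g * g' = (c1, 1) ∧ g' * g = (c1, 1) ∨ g * g' = (c1, 1) ∧ g' * g = (c2, 1) ∨
        g * g' = (c2, 1) ∧ g' * g = (c1, 1) ∨ g * g' = (c2, 1) ∧ g' * g = (c2, 1)) ∨
        (c1, 1) ≠ g * g' ∧ (c2, 1) ≠ g * g' ∧ (c1, 1) ≠ g' * g ∧ (c2, 1) ≠ g' * g := by
      revert g g'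
      decide
    have h1 : ((c1, 1) : GG) ≠ (c2, 1) := by decide
    rcases this with (⟨e, e'⟩ | ⟨e, e'⟩ | ⟨e, e'⟩ | ⟨e, e'⟩) | ⟨e1, e2, e3, e4⟩
    · rw [e, e']
    · simp [e, e', h1, h1.symm]
    · simp [e, e', h1, h1.symm]
    · rw [e, e']
    · simp [e1, e2, e3, e4]
  · rw [add_pow_char_of_commute 3 (single_commute_single
      (show ((c1, 1) : GG) * (c2, 1) = (c2, 1) * (c1, 1) by decide) (Commute.all _ _)),
      single_cube k (by decide), single_cube k (by decide), map_ofNat, one_add_one_eq_two]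

theorem good_T :
    Good k (single ((t0, 1) : GG) 1 + single ((t1, 1) : GG) 1 + single ((t2, 1) : GG) 1) := by
  refine ⟨commute_of_conj (fun g g' => ?_), 0, ?_⟩
  · have : ((g * g' = (t0, 1) ∨ g * g' = (t1, 1) ∨ g * g' = (t2, 1)) ∧
        (g' * g = (t0, 1) ∨ g' * g = (t1, 1) ∨ g' * g = (t2, 1))) ∨
        (t0, 1) ≠ g * g' ∧ (t1, 1) ≠ g * g' ∧ (t2, 1) ≠ g * g' ∧
        (t0, 1) ≠ g' * g ∧ (t1, 1) ≠ g' * g ∧ (t2, 1) ≠ g' * g := by
      revert g g'
      decide
    have h1 : ((t0, 1) : GG) ≠ (t1, 1) := by decide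
    have h2 : ((t0, 1) : GG) ≠ (t2, 1) := by decide
    have h3 : ((t1, 1) : GG) ≠ (t2, 1) := by decide
    rcases this with ⟨e | e | e, e' | e' | e'⟩ | ⟨e1, e2, e3, e4, e5, e6⟩
    all_goals simp [*, h1.symm, h2.symm, h3.symm]
  · have h3 := three_eq_zero k
    have e00 : ((t0, 1) : GG) * (t0, 1) = 1 := by decide
    have e01 : ((t0, 1) : GG) * (t1, 1) = (c1, 1) := by decide
    have e02 : ((t0, 1) : GG) * (t2, 1) = (c2, 1) := by decide
    have e10 : ((t1, 1) : GG) * (t0, 1) = (c2, 1) := by decide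
    have e11 : ((t1, 1) : GG) * (t1, 1) = 1 := by decide
    have e12 : ((t1, 1) : GG) * (t2, 1) = (c1, 1) := by decide
    have e20 : ((t2, 1) : GG) * (t0, 1) = (c1, 1) := by decide
    have e21 : ((t2, 1) : GG) * (t1, 1) = (c2, 1) := by decide
    have e22 : ((t2, 1) : GG) * (t2, 1) = 1 := by decide
    have h : (single ((t0, 1) : GG) (1 : k) + single ((t1, 1) : GG) 1 + single ((t2, 1) : GG) 1) *
        (single ((t0, 1) : GG) 1 + single ((t1, 1) : GG) 1 + single ((t2, 1) : GG) 1) =
        3 * (single (1 : GG) 1 + single ((c1, 1) : GG) 1 + single ((c2, 1) : GG) 1) := by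
      simp only [add_mul, mul_add, single_mul_single, e00, e01, e02, e10, e11, e12, e20, e21, e22,
        mul_one]
      noncomm_ring
    rw [pow_three', h, h3, zero_mul, zero_mul, map_zero]

theorem good_sum {ι : Type} (s : Finset ι) (f : ι → AA k) (h : ∀ i, Good k (f i)) :
    Good k (∑ i ∈ s, f i) :=
  Finset.sum_induction f (Good k) (fun _ _ => Good.add)
    ⟨fun y => Commute.zero_left y, 0, by simp⟩ (fun i _ => h i)

theorem good_of_central {e : AA k} (he : ∀ y, Commute e y) : Good k e := by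
  have hc : ∀ g g' : GG, e.coeff (g * g') = e.coeff (g' * g) := by
    intro g g'
    have h := congrArg (fun v : AA k => v.coeff g') (he (single g⁻¹ 1)).eq
    simpa [coeff_mul_single_apply, coeff_single_mul_apply] using h.symm
  have hu : (Finset.univ : Finset P3) = {1, c1, c2, t0, t1, t2} := by decide
  have h1 : e = ∑ h : Multiplicative (ZMod 3), (single ((1, h) : GG) (e.coeff (1, h)) +
      single ((1, h) : GG) (e.coeff (c1, h)) *
        (single ((c1, 1) : GG) 1 + single ((c2, 1) : GG) 1) +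
      single ((1, h) : GG) (e.coeff (t0, h)) *
        (single ((t0, 1) : GG) 1 + single ((t1, 1) : GG) 1 + single ((t2, 1) : GG) 1)) := by
    conv_lhs => rw [← sum_coeff_single e, Finsupp.sum_fintype _ _ (by simp),
      Fintype.sum_prod_type_right]
    refine Finset.sum_congr rfl (fun h _ => ?_)
    have a1 : e.coeff (c2, h) = e.coeff (c1, h) := by
      simpa [c1, c2] using hc (t1, 1) (t0, h)
    have a2 : e.coeff (t1, h) = e.coeff (t0, h) := by
      have b1 : c1 * t2 = t1 := by decide
      have b2 : t2 * c1 = t0 := by decide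
      simpa [b1, b2] using hc (c1, 1) (t2, h)
    have a3 : e.coeff (t2, h) = e.coeff (t0, h) := by
      have b1 : c2 * t1 = t2 := by decide
      have b2 : t1 * c2 = t0 := by decide
      simpa [b1, b2] using hc (c2, 1) (t1, h)
    rw [hu, Finset.sum_insert (by decide), Finset.sum_insert (by decide),
      Finset.sum_insert (by decide), Finset.sum_insert (by decide), Finset.sum_insert (by decide),
      Finset.sum_singleton, a1, a2, a3]
    simp only [mul_add, single_mul_single, Prod.mk_mul_mk, one_mul, mul_one]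
    abel
  rw [h1]
  exact good_sum _ _ (fun h => ((good_single h _).add ((good_single h _).mul good_C)).add
    ((good_single h _).mul good_T))

theorem idem_central {e : AA k} (he : ∀ y, Commute e y) (h2 : e * e = e) : e = 0 ∨ e = 1 := by
  obtain ⟨a, ha⟩ := (good_of_central he).2
  rw [pow_three, h2, h2] at ha
  rw [ha, ← map_mul] at h2
  have h3 : a * a = a := (algebraMap k (AA k)).injective h2
  rcases eq_zero_or_one_of_sq_eq_self (by rw [sq, h3] : a ^ 2 = a) with h | h
  · left
    rw [ha, h, map_zero]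
  · right
    rw [ha, h, map_one]

theorem indec (I J : TwoSidedIdeal (AA k)) (h : IsCompl I J) : I = ⊥ ∨ J = ⊥ := by
  have h1 : (1 : AA k) ∈ I ⊔ J := by
    rw [h.sup_eq_top]
    exact TwoSidedIdeal.mem_top _
  obtain ⟨e, he, f, hf, hef⟩ := TwoSidedIdeal.mem_sup.1 h1
  have h0 : ∀ x, x ∈ I → x ∈ J → x = 0 := by
    intro x hx hx'
    have : x ∈ I ⊓ J := (TwoSidedIdeal.mem_inf _).2 ⟨hx, hx'⟩
    rw [h.inf_eq_bot] at this
    exact (TwoSidedIdeal.mem_bot _).1 this
  have hc : ∀ y, Commute e y := by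
    intro y
    have h2 : e * y - y * e = y * f - f * y := by
      rw [eq_sub_of_add_eq hef]
      noncomm_ring
    refine sub_eq_zero.1 (h0 _ (I.sub_mem (I.mul_mem_right _ _ he) (I.mul_mem_left _ _ he)) ?_)
    rw [h2]
    exact J.sub_mem (J.mul_mem_left _ _ hf) (J.mul_mem_right _ _ hf)
  have hI : ∀ x ∈ I, x * e = x := by
    intro x hx
    have h2 : x * f = 0 := h0 _ (I.mul_mem_right _ _ hx) (J.mul_mem_left _ _ hf)
    rw [eq_sub_of_add_eq hef, mul_sub, h2, mul_one, sub_zero]
  rcases idem_central hc (hI e he) with h3 | h3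
  · left
    refine eq_bot_iff.2 (fun x hx => (TwoSidedIdeal.mem_bot _).2 ?_)
    rw [← hI x hx, h3, mul_zero]
  · right
    refine eq_bot_iff.2 (fun x hx => (TwoSidedIdeal.mem_bot _).2 (h0 x ?_ hx))
    rw [← mul_one x, ← h3]
    exact I.mul_mem_left _ _ he

theorem main (k : Type) [Field k] [CharP k 3] :
    (∀ I J : TwoSidedIdeal (MonoidAlgebra k (Equiv.Perm (Fin 3) × Multiplicative (ZMod 3))),
      IsCompl I J → I = ⊥ ∨ J = ⊥) ∧
    ¬IsSemisimpleRing (MonoidAlgebra k (Equiv.Perm (Fin 3) × Multiplicative (ZMod 3))) ∧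
    ∃ M : ModuleCat.{0} (MonoidAlgebra k (Equiv.Perm (Fin 3) × Multiplicative (ZMod 3)))ᵐᵒᵖ,
      Module.Finite (MonoidAlgebra k (Equiv.Perm (Fin 3) × Multiplicative (ZMod 3)))ᵐᵒᵖ M ∧
      ¬Module.Projective (MonoidAlgebra k (Equiv.Perm (Fin 3) × Multiplicative (ZMod 3)))ᵐᵒᵖ M ∧
      ∀ S : ModuleCat.{0} (MonoidAlgebra k (Equiv.Perm (Fin 3) × Multiplicative (ZMod 3)))ᵐᵒᵖ,
        IsSimpleModule (MonoidAlgebra k (Equiv.Perm (Fin 3) × Multiplicative (ZMod 3)))ᵐᵒᵖ S →
          phi S < phi M := by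
  refine ⟨indec, fun h => not_projective k (Module.projective_of_isSemisimpleRing _ _),
    ModuleCat.of _ ((AA k)ᵐᵒᵖ ⧸ KK k), inferInstance, not_projective k, fun S hS => ?_⟩
  exact (phi_le_one (simple_ext k S hS)).trans_lt (one_lt_phi (ext_quot _ (hom_zero k)))

end Pool.Agent.P.MP_f9a7a1_al
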